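import Mathlib

set_option autoImplicit false

/-!
# Cyclic numbers: elementary facts
-/

namespace Pool.Agent.X27.CY

/-- `m` is a cyclic number: every group of order `m` is cyclic, i.e. `gcd (m, φ(m)) = 1`. -/
def Cyc (m : ℕ) : Prop := 0 < m ∧ Nat.gcd m (Nat.totient m) = 1

lemma not_cyc_of_dvd {m p q : ℕ} (hp : p.Prime) (hq : q.Prime) (hpm : p ∣ m) (hqm : q ∣ m)
    (h : p ∣ q - 1) : ¬ Cyc m := by
  rintro ⟨hm, hc⟩
  have h1 : q.totient ∣ m.totient := Nat.totient_dvd_of_dvd hqm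
  rw [Nat.totient_prime hq] at h1
  have h2 : p ∣ Nat.gcd m m.totient := Nat.dvd_gcd hpm (h.trans h1)
  rw [hc] at h2
  exact hp.one_lt.ne' (Nat.dvd_one.1 h2)

lemma not_cyc_of_sq {m p : ℕ} (hp : p.Prime) (hpm : p ^ 2 ∣ m) : ¬ Cyc m := by
  rintro ⟨hm, hc⟩
  have h1 : (p ^ 2).totient ∣ m.totient := Nat.totient_dvd_of_dvd hpm
  rw [Nat.totient_prime_pow hp (by norm_num), show 2 - 1 = 1 from rfl, pow_one] at h1
  have h3 : p ∣ m.totient := (Dvd.intro _ rfl).trans h1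
  have h2 : p ∣ Nat.gcd m m.totient := Nat.dvd_gcd ((dvd_pow_self p (by norm_num)).trans hpm) h3
  rw [hc] at h2
  exact hp.one_lt.ne' (Nat.dvd_one.1 h2)

lemma not_cyc_even {m : ℕ} (h2 : 2 ∣ m) (hm : 2 < m) : ¬ Cyc m := by
  rintro ⟨_, hc⟩
  have h3 : 2 ∣ Nat.gcd m m.totient := Nat.dvd_gcd h2 (Nat.totient_even hm).two_dvd
  rw [hc] at h3
  omega

lemma cyc_of {m : ℕ} (hm : 0 < m) (h1 : ∀ p : ℕ, p.Prime → ¬ p ^ 2 ∣ m)
    (h2 : ∀ p q : ℕ, p.Prime → q.Prime → p ∣ m → q ∣ m → ¬ p ∣ q - 1) : Cyc m := by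
  refine ⟨hm, ?_⟩
  by_contra hne
  obtain ⟨r, hr, hrd⟩ := Nat.exists_prime_and_dvd hne
  have hrm : r ∣ m := hrd.trans (Nat.gcd_dvd_left _ _)
  have hrt : r ∣ m.totient := hrd.trans (Nat.gcd_dvd_right _ _)
  have hprod := Nat.totient_mul_prod_primeFactors m
  have h3 : r ∣ ∏ p ∈ m.primeFactors, p :=
    Finset.dvd_prod_of_mem (fun p => p) (Nat.mem_primeFactors.2 ⟨hr, hrm, hm.ne'⟩)
  have h4 : r ^ 2 ∣ m * ∏ p ∈ m.primeFactors, (p - 1) := by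
    rw [← hprod, sq]
    exact Nat.mul_dvd_mul hrt h3
  have h5 : r ∣ ∏ p ∈ m.primeFactors, (p - 1) := by
    by_contra hcon
    have hcop : Nat.Coprime (r ^ 2) (∏ p ∈ m.primeFactors, (p - 1)) :=
      Nat.Coprime.pow_left 2 ((Nat.Prime.coprime_iff_not_dvd hr).2 hcon)
    exact h1 r hr (hcop.dvd_of_dvd_mul_right h4)
  obtain ⟨q, hq, hrq⟩ := (Prime.dvd_finsetProd_iff hr.prime _).1 h5
  exact h2 r q hr (Nat.prime_of_mem_primeFactors hq) hrm (Nat.dvd_of_mem_primeFactors hq) hrq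

end Pool.Agent.X27.CY
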