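import Mathlib

set_option autoImplicit false

/-!
# Exact counting of integers avoiding residue classes modulo a set of primes
-/

namespace Pool.Agent.X27.CY

open Finset

lemma card_crt {P Q : ℕ} (hPQ : P.Coprime Q) (hP : 0 < P) (hQ : 0 < Q) (f g : ℕ → Prop)
    [DecidablePred f] [DecidablePred g] (hf : ∀ c, f (c % P) ↔ f c) (hg : ∀ c, g (c % Q) ↔ g c) :
    ((range (P * Q)).filter (fun c => f c ∧ g c)).card =
      ((range P).filter f).card * ((range Q).filter g).card := by
  rw [← card_product]
  refine Finset.card_bij (fun c _ => (c % P, c % Q)) ?_ ?_ ?_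
  · intro c hc
    rw [mem_filter] at hc
    rw [mem_product, mem_filter, mem_filter, mem_range, mem_range]
    exact ⟨⟨Nat.mod_lt _ hP, (hf c).2 hc.2.1⟩, ⟨Nat.mod_lt _ hQ, (hg c).2 hc.2.2⟩⟩
  · intro c hc c' hc' h
    rw [mem_filter, mem_range] at hc hc'
    rw [Prod.mk.injEq] at h
    have h1 : c ≡ c' [MOD P * Q] := (Nat.modEq_and_modEq_iff_modEq_mul hPQ).1 ⟨h.1, h.2⟩
    have h2 : c % (P * Q) = c' % (P * Q) := h1
    rwa [Nat.mod_eq_of_lt hc.1, Nat.mod_eq_of_lt hc'.1] at h2
  · rintro ⟨a, b⟩ hab
    rw [mem_product, mem_filter, mem_filter, mem_range, mem_range] at hab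
    obtain ⟨⟨ha, hfa⟩, hb, hgb⟩ := hab
    simp only at ha hfa hb hgb
    obtain ⟨k, hk1, hk2⟩ := Nat.chineseRemainder hPQ a b
    have hka : (k % (P * Q)) % P = a := by
      rw [Nat.mod_mul_right_mod]
      exact (show k % P = a % P from hk1).trans (Nat.mod_eq_of_lt ha)
    have hkb : (k % (P * Q)) % Q = b := by
      rw [Nat.mod_mul_left_mod]
      exact (show k % Q = b % Q from hk2).trans (Nat.mod_eq_of_lt hb)
    refine ⟨k % (P * Q), ?_, ?_⟩
    · rw [mem_filter, mem_range]
      refine ⟨Nat.mod_lt _ (Nat.mul_pos hP hQ), ?_, ?_⟩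
      · rw [← hf, hka]; exact hfa
      · rw [← hg, hkb]; exact hgb
    · simp only [hka, hkb]

/-- `c + h` is prime to the primes of `S`, for all `h ∈ H` -/
def Free (H S : Finset ℕ) (c : ℕ) : Prop := ∀ p ∈ S, ∀ h ∈ H, ¬ p ∣ c + h

instance (H S : Finset ℕ) : DecidablePred (Free H S) := fun c => by unfold Free; infer_instance

/-- the number of the excluded residue classes modulo `p` -/
def rho (H : Finset ℕ) (p : ℕ) : ℕ := ((range p).filter (fun c => ∃ h ∈ H, p ∣ c + h)).card

lemma rho_le (H : Finset ℕ) (p : ℕ) : rho H p ≤ p := by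
  refine (card_filter_le _ _).trans ?_
  simp

lemma free_mod (H S : Finset ℕ) {P : ℕ} (hP : ∀ p ∈ S, p ∣ P) (c : ℕ) :
    Free H S (c % P) ↔ Free H S c := by
  unfold Free
  refine forall_congr' fun p => forall_congr' fun hp => forall_congr' fun h => forall_congr' fun _ => ?_
  rw [Nat.dvd_iff_mod_eq_zero, Nat.dvd_iff_mod_eq_zero, Nat.add_mod, Nat.mod_mod_of_dvd _ (hP p hp),
    ← Nat.add_mod]

lemma card_free (H S : Finset ℕ) (hS : ∀ p ∈ S, p.Prime) :
    ((range (∏ p ∈ S, p)).filter (Free H S)).card = ∏ p ∈ S, (p - rho H p) := by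
  classical
  induction S using Finset.induction_on with
  | empty =>
    rw [prod_empty, prod_empty, filter_true_of_mem (fun c _ p hp => absurd hp (notMem_empty p))]
    simp
  | insert p S hpS ih =>
    have hp : p.Prime := hS p (mem_insert_self _ _)
    have hS' : ∀ q ∈ S, q.Prime := fun q hq => hS q (mem_insert_of_mem hq)
    have hcop : p.Coprime (∏ q ∈ S, q) := by
      refine Nat.Coprime.prod_right fun q hq => ?_
      exact (Nat.coprime_primes hp (hS' q hq)).2 (fun h => hpS (h ▸ hq))
    have hQ : 0 < ∏ q ∈ S, q := Finset.prod_pos fun q hq => (hS' q hq).pos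
    rw [prod_insert hpS, prod_insert hpS, ← ih hS']
    have e1 : (range (p * ∏ q ∈ S, q)).filter (Free H (insert p S)) =
        (range (p * ∏ q ∈ S, q)).filter (fun c => Free H {p} c ∧ Free H S c) := by
      apply filter_congr
      intro c _
      unfold Free
      simp only [mem_insert, forall_eq_or_imp, mem_singleton, forall_eq]
    rw [e1, card_crt hcop hp.pos hQ _ _ (free_mod H {p} (by simp)) (free_mod H S
      (fun q hq => Finset.dvd_prod_of_mem _ hq))]
    congr 1
    have h1 := Finset.card_filter_add_card_filter_not (s := range p) (Free H {p})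
    have h2 : ((range p).filter (fun c => ¬ Free H {p} c)).card = rho H p := by
      unfold rho Free
      congr 1
      apply filter_congr
      intro c _
      simp
    rw [h2, card_range] at h1
    omega

lemma card_block (f : ℕ → Prop) [DecidablePred f] {P : ℕ} (hf : ∀ c, f (c % P) ↔ f c) (A k : ℕ) :
    ((Ico A (A + k * P)).filter f).card = k * ((range P).filter f).card := by
  have hper : Function.Periodic f P := by
    intro c
    rw [eq_iff_iff, ← hf (c + P), ← hf c, Nat.add_mod_right]
  induction k with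
  | zero => simp
  | succ k ih =>
    have h1 : Ico A (A + (k + 1) * P) = Ico A (A + k * P) ∪ Ico (A + k * P) (A + k * P + P) := by
      rw [Ico_union_Ico_eq_Ico (by omega) (by omega)]
      congr 1
      ring
    have hd : Disjoint ((Ico A (A + k * P)).filter f) ((Ico (A + k * P) (A + k * P + P)).filter f) :=
      disjoint_filter_filter (Ico_disjoint_Ico_consecutive _ _ _)
    rw [h1, filter_union, card_union_of_disjoint hd, ih,
      Nat.filter_Ico_card_eq_of_periodic _ _ _ hper, Nat.count_eq_card_filter_range]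
    ring

lemma card_interval_nat (f : ℕ → Prop) [DecidablePred f] {P : ℕ} (hP : 0 < P)
    (hf : ∀ c, f (c % P) ↔ f c) (A L : ℕ) :
    (L / P) * ((range P).filter f).card ≤ ((Ico A (A + L)).filter f).card ∧
      ((Ico A (A + L)).filter f).card ≤ (L / P + 1) * ((range P).filter f).card := by
  constructor
  · rw [← card_block f hf A (L / P)]
    apply card_le_card
    apply filter_subset_filter
    apply Ico_subset_Ico_right
    have h0 : L / P * P ≤ L := Nat.div_mul_le_self L P
    omega
  · rw [← card_block f hf A (L / P + 1)]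
    apply card_le_card
    apply filter_subset_filter
    apply Ico_subset_Ico_right
    have h0 := Nat.div_add_mod L P
    have h1 := Nat.mod_lt L hP
    nlinarith [mul_comm P (L / P)]

lemma card_interval (f : ℕ → Prop) [DecidablePred f] {P : ℕ} (hP : 0 < P)
    (hf : ∀ c, f (c % P) ↔ f c) (A L : ℕ) :
    |(((Ico A (A + L)).filter f).card : ℝ) - L * (((range P).filter f).card / P)| ≤ P := by
  set K := ((range P).filter f).card with hK
  have hKP : K ≤ P := (card_filter_le _ _).trans (by simp)
  have hdiv := Nat.div_add_mod L P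
  set k := L / P with hk
  have hr := Nat.mod_lt L hP
  have h1 : k * K ≤ ((Ico A (A + L)).filter f).card := by
    rw [hK, ← card_block f hf A k]
    apply card_le_card
    apply filter_subset_filter
    apply Ico_subset_Ico_right
    have h0 : k * P ≤ L := Nat.div_mul_le_self L P
    omega
  have h2 : ((Ico A (A + L)).filter f).card ≤ (k + 1) * K := by
    rw [hK, ← card_block f hf A (k + 1)]
    apply card_le_card
    apply filter_subset_filter
    apply Ico_subset_Ico_right
    nlinarith [hdiv, Nat.mod_lt L hP, mul_comm P k]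
  have hP' : (0 : ℝ) < P := by exact_mod_cast hP
  have hL : (L : ℝ) = P * k + (L % P : ℕ) := by exact_mod_cast hdiv.symm
  have hr' : ((L % P : ℕ) : ℝ) < P := by exact_mod_cast hr
  have hr0 : (0 : ℝ) ≤ ((L % P : ℕ) : ℝ) := Nat.cast_nonneg _
  have hK' : (K : ℝ) ≤ P := by exact_mod_cast hKP
  have hK0 : (0 : ℝ) ≤ K := Nat.cast_nonneg _
  have e : (L : ℝ) * (K / P) = k * K + (L % P : ℕ) * (K / P) := by
    rw [hL]; field_simp
  have h3 : ((L % P : ℕ) : ℝ) * (K / P) ≤ K := by
    rw [← mul_div_assoc, div_le_iff₀ hP']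
    nlinarith
  have h4 : 0 ≤ ((L % P : ℕ) : ℝ) * (K / P) := by positivity
  have h1' : (k : ℝ) * K ≤ ((Ico A (A + L)).filter f).card := by exact_mod_cast h1
  have h2' : (((Ico A (A + L)).filter f).card : ℝ) ≤ (k + 1) * K := by exact_mod_cast h2
  rw [abs_le, e]
  constructor <;> nlinarith

/-- the number of `c` in an interval for which all `c + h` are prime to the primes of `S` -/
theorem count_free (H S : Finset ℕ) (hS : ∀ p ∈ S, p.Prime) (A L : ℕ) :
    |(((Ico A (A + L)).filter (Free H S)).card : ℝ) - L * ∏ p ∈ S, (1 - (rho H p : ℝ) / p)| ≤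
      ∏ p ∈ S, (p : ℝ) := by
  have hQ : 0 < ∏ q ∈ S, q := Finset.prod_pos fun q hq => (hS q hq).pos
  have h := card_interval (Free H S) hQ (free_mod H S (fun q hq => Finset.dvd_prod_of_mem _ hq)) A L
  rw [card_free H S hS] at h
  have e : ((∏ p ∈ S, (p - rho H p) : ℕ) : ℝ) / ((∏ p ∈ S, p : ℕ) : ℝ) =
      ∏ p ∈ S, (1 - (rho H p : ℝ) / p) := by
    rw [Nat.cast_prod, Nat.cast_prod, ← Finset.prod_div_distrib]
    apply Finset.prod_congr rfl
    intro p hp
    have hp0 : (p : ℝ) ≠ 0 := by exact_mod_cast (hS p hp).ne_zero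
    rw [Nat.cast_sub (rho_le H p)]
    field_simp
  rw [e] at h
  rwa [Nat.cast_prod] at h

end Pool.Agent.X27.CY
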