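import Mathlib
import Pool.Agent.H305R2.Smooth
import Pool.Agent.X27.CY.Crt

set_option autoImplicit false

/-!
# The density of the integers `c` with `c`, `c + g` prime to all primes `p ≤ z`
-/

namespace Pool.Agent.X27.CY

open Finset Filter Topology
open Pool.Agent.H305R2 (VV VV_tendsto)

/-- the factor of the twin prime constant at `n` -/
noncomputable def tf (n : ℕ) : ℝ := if n.Prime ∧ 2 < n then 1 - 1 / ((n : ℝ) - 1) ^ 2 else 1

/-- the twin prime constant `∏_{p > 2} (1 - 1 / (p - 1) ^ 2)` -/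
noncomputable def twinC : ℝ := ∏' n : ℕ, tf n

/-- `tf n - 1` -/
noncomputable def tg (n : ℕ) : ℝ := if n.Prime ∧ 2 < n then - (1 / ((n : ℝ) - 1) ^ 2) else 0

lemma tf_eq (n : ℕ) : tf n = 1 + tg n := by
  unfold tf tg
  split_ifs <;> ring

lemma tf_pos (n : ℕ) : 0 < tf n := by
  unfold tf
  split_ifs with h
  · have h1 : (3 : ℝ) ≤ n := by exact_mod_cast h.2
    have h2 : 1 / ((n : ℝ) - 1) ^ 2 < 1 := by
      rw [div_lt_one (by nlinarith)]
      nlinarith
    linarith
  · norm_num

lemma tg_summable : Summable tg := by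
  have h : Summable (fun n : ℕ => 4 * (1 / (n : ℝ) ^ 2)) :=
    (Real.summable_one_div_nat_pow.2 (by norm_num)).mul_left 4
  refine Summable.of_norm_bounded h fun n => ?_
  unfold tg
  split_ifs with h
  · have h1 : (3 : ℝ) ≤ n := by exact_mod_cast h.2
    rw [norm_neg, Real.norm_of_nonneg (by positivity), mul_one_div,
      div_le_div_iff₀ (by nlinarith) (by positivity)]
    nlinarith
  · rw [norm_zero]; positivity

lemma tf_hasProd : HasProd tf twinC := by
  have h := Real.multipliable_one_add_of_summable tg_summable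
  have e : (fun n => 1 + tg n) = tf := by
    funext n
    rw [tf_eq]
  rw [e] at h
  exact h.hasProd

lemma twinC_pos : 0 < twinC := by
  have h := Real.summable_log_one_add_of_summable tg_summable
  have e : (fun n => Real.log (1 + tg n)) = fun n => Real.log (tf n) := by
    funext n
    rw [tf_eq]
  rw [e] at h
  have h1 := Real.rexp_tsum_eq_tprod tf_pos h
  unfold twinC
  rw [← h1]
  exact Real.exp_pos _

lemma twin_tendsto : Tendsto (fun z : ℕ => ∏ n ∈ range (z + 1), tf n) atTop (𝓝 twinC) :=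
  (tendsto_add_atTop_iff_nat 1).2 tf_hasProd.tendsto_prod_nat

/-- the primes up to `z` -/
def Pr (z : ℕ) : Finset ℕ := (Icc 1 z).filter Nat.Prime

lemma Pr_prime {z p : ℕ} (hp : p ∈ Pr z) : p.Prime := (mem_filter.1 hp).2

lemma prod_tf (z : ℕ) : ∏ n ∈ range (z + 1), tf n = ∏ p ∈ Pr z, tf p := by
  symm
  apply prod_subset
  · intro p hp
    unfold Pr at hp
    rw [mem_filter, mem_Icc] at hp
    rw [mem_range]
    omega
  · intro n hn hn'
    unfold tf
    rw [if_neg]
    intro h
    apply hn'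
    unfold Pr
    rw [mem_range] at hn
    rw [mem_filter, mem_Icc]
    exact ⟨⟨h.1.one_lt.le, by omega⟩, h.1⟩

/-- number of excluded residue classes when they are distinct -/
lemma rho_eq (H : Finset ℕ) {p : ℕ} (hp : 0 < p)
    (hinj : ∀ h ∈ H, ∀ h' ∈ H, h % p = h' % p → h = h') : rho H p = H.card := by
  unfold rho
  symm
  refine Finset.card_bij (fun h _ => (p - h % p) % p) ?_ ?_ ?_
  · intro h hh
    rw [mem_filter, mem_range]
    refine ⟨Nat.mod_lt _ hp, h, hh, ?_⟩
    rw [Nat.dvd_iff_mod_eq_zero, Nat.add_mod, Nat.mod_mod, ← Nat.add_mod]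
    have h1 : h % p < p := Nat.mod_lt _ hp
    have h2 : p - h % p + h = p + p * (h / p) := by
      have := Nat.div_add_mod h p
      omega
    rw [h2, show p + p * (h / p) = p * (1 + h / p) by ring]
    exact Nat.mul_mod_right _ _
  · intro h hh h' hh' heq
    apply hinj h hh h' hh'
    have h1 : h % p < p := Nat.mod_lt _ hp
    have h1' : h' % p < p := Nat.mod_lt _ hp
    have k1 : ∀ a : ℕ, 0 < a → a < p → (p - a) % p = p - a := fun a _ _ =>
      Nat.mod_eq_of_lt (by omega)
    rcases Nat.eq_zero_or_pos (h % p) with e | e <;> rcases Nat.eq_zero_or_pos (h' % p) with e' | e'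
    · rw [e, e']
    · rw [e, Nat.sub_zero, Nat.mod_self, k1 _ e' h1'] at heq
      omega
    · rw [e', Nat.sub_zero, Nat.mod_self, k1 _ e h1] at heq
      omega
    · rw [k1 _ e h1, k1 _ e' h1'] at heq
      omega
  · intro c hc
    rw [mem_filter, mem_range] at hc
    obtain ⟨hc, h, hh, hd⟩ := hc
    refine ⟨h, hh, ?_⟩
    have h1 : h % p < p := Nat.mod_lt _ hp
    have h2 : (c + h % p) % p = 0 := by
      rw [Nat.add_mod, Nat.mod_mod, ← Nat.add_mod]
      exact Nat.mod_eq_zero_of_dvd hd
    obtain ⟨k, hk⟩ := Nat.dvd_of_mod_eq_zero h2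
    have hk2 : k < 2 := by
      by_contra hcon
      push Not at hcon
      have : p * 2 ≤ p * k := Nat.mul_le_mul_left p hcon
      omega
    interval_cases k
    · have h3 : c = 0 := by omega
      have h4 : h % p = 0 := by omega
      rw [h4, Nat.sub_zero, Nat.mod_self, h3]
    · have h3 : p - h % p = c := by omega
      rw [h3, Nat.mod_eq_of_lt hc]

/-- the local density at `p ≤ z` of the pairs `c`, `c + g` -/
noncomputable def G (g z : ℕ) : ℝ := ∏ p ∈ Pr z, (1 - (rho {0, g} p : ℝ) / p)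

/-- the additional factor at `2` and at `3` -/
noncomputable def ef (g p : ℕ) : ℝ := if p = 2 then 2 else if p = 3 ∧ g = 6 then 2 else 1

lemma rho_pair {g p : ℕ} (hg : g = 2 ∨ g = 4 ∨ g = 6) (hp : p.Prime) (h3 : 3 ≤ p)
    (h : ¬ (p = 3 ∧ g = 6)) : rho {0, g} p = 2 := by
  have hnd : ¬ p ∣ g := by
    intro hd
    have h5 : p ≤ 6 := (Nat.le_of_dvd (by omega) hd).trans (by omega)
    interval_cases p
    · rcases hg with rfl | rfl | rfl <;> revert h hd <;> decide
    · exact absurd hp (by norm_num)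
    · rcases hg with rfl | rfl | rfl <;> revert hd <;> decide
    · exact absurd hp (by norm_num)
  rw [rho_eq {0, g} hp.pos]
  · rw [card_pair]; omega
  · intro a ha b hb hab
    rw [mem_insert, mem_singleton] at ha hb
    rcases ha with rfl | rfl <;> rcases hb with rfl | rfl
    · rfl
    · rw [Nat.zero_mod] at hab
      exact absurd (Nat.dvd_of_mod_eq_zero hab.symm) hnd
    · rw [Nat.zero_mod] at hab
      exact absurd (Nat.dvd_of_mod_eq_zero hab) hnd
    · rfl

lemma factor_eq {g p : ℕ} (hg : g = 2 ∨ g = 4 ∨ g = 6) (hp : p.Prime) :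
    1 - (rho {0, g} p : ℝ) / p = ef g p * tf p * (1 - (p : ℝ)⁻¹) ^ 2 := by
  rcases Nat.lt_or_ge p 3 with h3 | h3
  · have h2 : p = 2 := by have := hp.two_le; omega
    subst h2
    have h4 : rho {0, g} 2 = 1 := by
      rcases hg with rfl | rfl | rfl <;> decide
    rw [h4]
    unfold ef tf
    norm_num
  · have hp3 : (3 : ℝ) ≤ p := by exact_mod_cast h3
    by_cases h6 : p = 3 ∧ g = 6
    · obtain ⟨rfl, rfl⟩ := h6
      have h4 : rho {0, 6} 3 = 1 := by decide
      rw [h4]
      unfold ef tf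
      norm_num
    · rw [rho_pair hg hp h3 h6]
      unfold ef tf
      rw [if_neg (by omega), if_neg h6, if_pos ⟨hp, h3⟩]
      have h7 : (p : ℝ) - 1 ≠ 0 := by linarith
      have h8 : (p : ℝ) ≠ 0 := by linarith
      field_simp
      push_cast
      ring

/-- the constant of `G g` -/
noncomputable def eg (g : ℕ) : ℝ := if g = 6 then 4 else 2

lemma prod_ef {g z : ℕ} (hz : 3 ≤ z) : ∏ p ∈ Pr z, ef g p = eg g := by
  have h1 : ({2, 3} : Finset ℕ) ⊆ Pr z := by
    intro p hp
    unfold Pr
    rw [mem_insert, mem_singleton] at hp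
    rw [mem_filter, mem_Icc]
    rcases hp with rfl | rfl
    · exact ⟨⟨by norm_num, by omega⟩, by norm_num⟩
    · exact ⟨⟨by norm_num, by omega⟩, by norm_num⟩
  rw [← prod_subset h1]
  · rw [prod_pair (by norm_num)]
    unfold ef eg
    by_cases h : g = 6
    · simp [h]; norm_num
    · simp [h]
  · intro p _ hp
    rw [mem_insert, mem_singleton] at hp
    unfold ef
    rw [if_neg (by tauto), if_neg (by tauto)]

lemma G_eq {g z : ℕ} (hg : g = 2 ∨ g = 4 ∨ g = 6) (hz : 3 ≤ z) :
    G g z = eg g * (∏ n ∈ range (z + 1), tf n) * (VV z)⁻¹ ^ 2 := by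
  unfold G
  rw [prod_congr rfl (fun p hp => factor_eq hg (Pr_prime hp)), prod_mul_distrib, prod_mul_distrib,
    prod_ef hz, prod_tf, prod_pow]
  congr 2
  unfold VV
  rw [← prod_inv_distrib]
  apply prod_congr rfl
  intro p _
  rw [inv_inv]

/-- `G g z (log z)^2` tends to a positive constant -/
theorem G_tendsto {g : ℕ} (hg : g = 2 ∨ g = 4 ∨ g = 6) :
    Tendsto (fun z : ℕ => G g z * Real.log z ^ 2) atTop
      (𝓝 (eg g * twinC * Real.exp (-(2 * Real.eulerMascheroniConstant)))) := by
  have h1 := VV_tendsto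
  have h2 := (h1.inv₀ (Real.exp_pos _).ne').pow 2
  have h3 := (twin_tendsto.const_mul (eg g)).mul h2
  have e : (Real.exp Real.eulerMascheroniConstant)⁻¹ ^ 2 =
      Real.exp (-(2 * Real.eulerMascheroniConstant)) := by
    rw [← Real.exp_neg, ← Real.exp_nat_mul]
    congr 1
    push_cast
    ring
  rw [e] at h3
  refine h3.congr' ?_
  filter_upwards [eventually_ge_atTop 3] with z hz
  rw [G_eq hg hz, inv_div, div_pow, inv_pow]
  ring

end Pool.Agent.X27.CY
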