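import Mathlib
import Pool.Agent.Y818.GF.SW

set_option autoImplicit false

/-!
# Lower bound for the sum of the reciprocals of the primes `q ≡ 1` modulo `p`, `p ≤ log log y`
-/

namespace Pool.Agent.X27.CY

open Finset Filter Topology H343E
open Pool.Agent.Y818.GF (FF sw_FF)

/-- the primes `q ≤ y` with `q ≡ 1` modulo `p` -/
def QQ (p y : ℕ) : Finset ℕ := (Icc 1 y).filter (fun q => q.Prime ∧ q ≡ 1 [MOD p])

/-- the sum of the reciprocals of the primes `q ≤ y` with `q ≡ 1` modulo `p` -/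
noncomputable def SS (p y : ℕ) : ℝ := ∑ q ∈ QQ p y, 1 / (q : ℝ)

lemma QQ_mono (p : ℕ) {x y : ℕ} (h : x ≤ y) : QQ p x ⊆ QQ p y := by
  unfold QQ
  apply filter_subset_filter
  exact Icc_subset_Icc_right h

lemma SS_mono (p : ℕ) {x y : ℕ} (h : x ≤ y) : SS p x ≤ SS p y :=
  sum_le_sum_of_subset_of_nonneg (QQ_mono p h) fun _ _ _ => by positivity

lemma piAP_eq (p x : ℕ) : piAP x p 1 = ((QQ p x).card : ℝ) := rfl

lemma block_sum (p x y : ℕ) (hx : 1 ≤ x) (h : x ≤ y) :
    (1 / (y : ℝ)) * (piAP y p 1 - piAP x p 1) ≤ SS p y - SS p x := by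
  have hy0 : (0 : ℝ) < y := by exact_mod_cast (by omega : 0 < y)
  rw [piAP_eq, piAP_eq]
  unfold SS
  have h1 := Finset.sum_sdiff (f := fun q : ℕ => 1 / (q : ℝ)) (QQ_mono p h)
  have h2 := Finset.card_sdiff_add_card_eq_card (QQ_mono p h)
  have h3 : ((QQ p y \ QQ p x).card : ℝ) * (1 / (y : ℝ)) ≤ ∑ q ∈ QQ p y \ QQ p x, 1 / (q : ℝ) := by
    rw [← nsmul_eq_mul]
    apply card_nsmul_le_sum
    intro q hq
    rw [Finset.mem_sdiff] at hq
    unfold QQ at hq
    rw [mem_filter, mem_Icc] at hq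
    have hq0 : (0 : ℝ) < q := by exact_mod_cast (by omega : 0 < q)
    apply one_div_le_one_div_of_le hq0
    exact_mod_cast hq.1.1.2
  have h4 : ((QQ p y).card : ℝ) = (QQ p y \ QQ p x).card + (QQ p x).card := by exact_mod_cast h2.symm
  rw [h4]
  have e : (1 / (y : ℝ)) * (((QQ p y \ QQ p x).card : ℝ) + (QQ p x).card - (QQ p x).card) =
      ((QQ p y \ QQ p x).card : ℝ) * (1 / (y : ℝ)) := by ring
  linarith

lemma FF_bounds : ∃ x1 : ℝ, ∀ x : ℝ, x1 ≤ x → x / Real.log x ≤ FF x ∧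
    FF x ≤ (5 / 4) * (x / Real.log x) := by
  have h := (Real.tendsto_log_atTop.eventually_ge_atTop (8 : ℝ)).and (eventually_ge_atTop (1 : ℝ))
  obtain ⟨x1, h1⟩ := eventually_atTop.1 h
  refine ⟨x1, fun x hx => ?_⟩
  obtain ⟨hl, hx1⟩ := h1 x hx
  have hl0 : 0 < Real.log x := by linarith
  have hx0 : 0 < x := by linarith
  set L := Real.log x with hL
  unfold FF
  rw [← hL, pow_one]
  have e2 : x / L ^ 2 = (x / L) * (1 / L) := by field_simp
  have e3 : x / L ^ 3 = (x / L) * (1 / L) ^ 2 := by field_simp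
  have e4 : x / L ^ 4 = (x / L) * (1 / L) ^ 3 := by field_simp
  have hu : 1 / L ≤ 1 / 8 := one_div_le_one_div_of_le (by norm_num) hl
  have hu0 : 0 < 1 / L := by positivity
  have hv0 : 0 < x / L := by positivity
  rw [e2, e3, e4]
  set u := 1 / L with hu'
  set v := x / L with hv'
  constructor
  · have : 0 < v * u := by positivity
    have : 0 < v * u ^ 2 := by positivity
    have : 0 < v * u ^ 3 := by positivity
    linarith
  · have a2 : u ^ 2 ≤ 1 / 64 := by nlinarith
    have a3 : u ^ 3 ≤ 1 / 512 := by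
      have : u ^ 3 = u ^ 2 * u := by ring
      rw [this]
      nlinarith [sq_nonneg u]
    nlinarith [mul_nonneg hv0.le (sub_nonneg.2 hu), mul_nonneg hv0.le (sub_nonneg.2 a2),
      mul_nonneg hv0.le (sub_nonneg.2 a3)]

lemma block_primes : ∃ x2 : ℕ, 2 ≤ x2 ∧ ∀ x : ℕ, x2 ≤ x → ∀ p : ℕ, 2 ≤ p → (p : ℝ) ≤ Real.log x →
    (x : ℝ) / (p * Real.log x) ≤ piAP (4 * x) p 1 - piAP x p 1 := by
  obtain ⟨C, hC, x0, h⟩ := sw_FF 1
  obtain ⟨x1, h1⟩ := FF_bounds
  have hlog : Tendsto (fun x : ℕ => Real.log (x : ℝ)) atTop atTop :=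
    Real.tendsto_log_atTop.comp tendsto_natCast_atTop_atTop
  have ev := ((hlog.eventually_ge_atTop (max 8 (20 * C))).and (eventually_ge_atTop (max x0 2))).and
    (tendsto_natCast_atTop_atTop.eventually_ge_atTop x1)
  obtain ⟨x2, h2⟩ := eventually_atTop.1 ev
  refine ⟨max x2 2, le_max_right _ _, fun x hx p hp hpl => ?_⟩
  obtain ⟨⟨hl, hx0⟩, hx1⟩ := h2 x ((le_max_left _ _).trans hx)
  have hl8 : 8 ≤ Real.log x := (le_max_left _ _).trans hl
  have hlC : 20 * C ≤ Real.log x := (le_max_right _ _).trans hl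
  have hx00 : x0 ≤ x := (le_max_left _ _).trans hx0
  have hx2 : 2 ≤ x := (le_max_right _ _).trans hx0
  have hxr : (0 : ℝ) < x := by exact_mod_cast (by omega : 0 < x)
  have h4x : ((4 * x : ℕ) : ℝ) = 4 * x := by push_cast; ring
  have hlog4 : Real.log ((4 * x : ℕ) : ℝ) = Real.log 4 + Real.log x := by
    rw [h4x, Real.log_mul (by norm_num) hxr.ne']
  have hl4 : Real.log 4 ≤ 1.4 := by
    rw [show (4 : ℝ) = 2 ^ 2 by norm_num, Real.log_pow]
    have := Real.log_two_lt_d9
    push_cast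
    linarith
  have hl40 : 0 < Real.log 4 := Real.log_pos (by norm_num)
  set L := Real.log x with hL
  set M := Real.log ((4 * x : ℕ) : ℝ) with hM
  have hLM : L ≤ M := by linarith
  have hML : M ≤ (6 / 5) * L := by linarith
  have a1 := h x hx00 p 1 (by omega) (by rw [pow_one]; exact hpl) (by omega) (Nat.coprime_one_left p)
  have a2 := h (4 * x) (by omega) p 1 (by omega) (by rw [pow_one]; exact hpl.trans hLM) (by omega)
    (Nat.coprime_one_left p)
  rw [← hL] at a1
  rw [← hM, h4x] at a2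
  have b1 := (h1 x hx1).2
  have b2 := (h1 (4 * x) (by linarith)).1
  have hM' : Real.log (4 * (x : ℝ)) = M := by rw [hM, h4x]
  rw [hM'] at b2
  rw [← hL] at b1
  have hφ : (0 : ℝ) < Nat.totient p := by exact_mod_cast Nat.totient_pos.2 (by omega)
  have hφp : (Nat.totient p : ℝ) ≤ p := by exact_mod_cast Nat.totient_le p
  set φ : ℝ := ((Nat.totient p : ℕ) : ℝ) with hφd
  have c1 := (abs_le.1 a1).2
  have c2 := (abs_le.1 a2).1
  have hL0 : 0 < L := by linarith
  have hM0 : 0 < M := by linarith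
  -- the error terms
  have e1 : C * (x / (φ * L ^ 5)) ≤ (1 / φ) * ((1 / 20) * (x / L)) := by
    have h5 : C * (x / (φ * L ^ 5)) = (1 / φ) * (x / L) * (C / L ^ 4) := by field_simp
    have h6 : C / L ^ 4 ≤ 1 / 20 := by
      rw [div_le_div_iff₀ (by positivity) (by norm_num)]
      have : L ≤ L ^ 4 := le_self_pow₀ (by linarith) (by norm_num)
      linarith
    rw [h5]
    have h7 : 0 ≤ (1 / φ) * (x / L) := by positivity
    nlinarith
  have e2 : C * (4 * x / (φ * M ^ 5)) ≤ (1 / φ) * ((1 / 5) * (x / L)) := by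
    have h5 : C * (4 * x / (φ * M ^ 5)) = (1 / φ) * (x / M) * (4 * C / M ^ 4) := by field_simp
    have h6 : 4 * C / M ^ 4 ≤ 1 / 5 := by
      rw [div_le_div_iff₀ (by positivity) (by norm_num)]
      have : M ≤ M ^ 4 := le_self_pow₀ (by linarith) (by norm_num)
      linarith
    rw [h5]
    have h7 : x / M ≤ x / L := div_le_div_of_nonneg_left hxr.le hL0 hLM
    have h8 : 0 ≤ 1 / φ := by positivity
    have h9 : 0 ≤ x / M := by positivity
    calc 1 / φ * (x / M) * (4 * C / M ^ 4) ≤ 1 / φ * (x / M) * (1 / 5) := by gcongr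
      _ ≤ 1 / φ * (x / L) * (1 / 5) := by gcongr
      _ = _ := by ring
  have m1 : FF x / φ ≤ (1 / φ) * ((5 / 4) * (x / L)) := by
    rw [div_eq_mul_one_div, mul_comm]
    gcongr
  have m2 : (1 / φ) * ((10 / 3) * (x / L)) ≤ FF (4 * x) / φ := by
    rw [div_eq_mul_one_div (FF (4 * x)), mul_comm (FF (4 * x))]
    have h5 : (10 / 3) * (x / L) ≤ 4 * x / M := by
      rw [← mul_div_assoc, div_le_div_iff₀ hL0 hM0]
      nlinarith
    have h6 : (10 / 3) * (x / L) ≤ FF (4 * x) := h5.trans b2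
    gcongr
  have fin : (x : ℝ) / (p * L) ≤ (1 / φ) * (x / L) := by
    have h5 : (x : ℝ) / (p * L) = (1 / p) * (x / L) := by
      have : (p : ℝ) ≠ 0 := by positivity
      field_simp
    rw [h5]
    gcongr
  have hv : 0 ≤ (1 / φ) * (x / L) := by positivity
  have g1 : (1 / φ) * ((1 / 20) * (x / L)) = (1 / 20) * ((1 / φ) * (x / L)) := by ring
  have g2 : (1 / φ) * ((1 / 5) * (x / L)) = (1 / 5) * ((1 / φ) * (x / L)) := by ring
  have g3 : (1 / φ) * ((5 / 4) * (x / L)) = (5 / 4) * ((1 / φ) * (x / L)) := by ring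
  have g4 : (1 / φ) * ((10 / 3) * (x / L)) = (10 / 3) * ((1 / φ) * (x / L)) := by ring
  rw [g1] at e1
  rw [g2] at e2
  rw [g3] at m1
  rw [g4] at m2
  linarith

/-- Lower bound for the sum over the primes `q ≡ 1` modulo `p`. -/
theorem SS_lower : ∃ y0 : ℕ, ∀ y : ℕ, y0 ≤ y → ∀ p : ℕ, 2 ≤ p →
    (p : ℝ) ≤ Real.log (Real.log y) → Real.log (Real.log y) / (12 * p) ≤ SS p y := by
  obtain ⟨x2, hx22, h⟩ := block_primes
  have hl4 : Real.log 4 ≤ 1.4 := by
    rw [show (4 : ℝ) = 2 ^ 2 by norm_num, Real.log_pow]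
    have := Real.log_two_lt_d9
    push_cast
    linarith
  have hl4' : 1 ≤ Real.log 4 := by
    rw [show (4 : ℝ) = 2 ^ 2 by norm_num, Real.log_pow]
    have := Real.log_two_gt_d9
    push_cast
    linarith
  -- partial sums
  have step : ∀ p : ℕ, 2 ≤ p → ∀ K : ℕ, p + x2 ≤ K →
      (1 / (6 * (p : ℝ))) * (Real.log K - Real.log ((p + x2 : ℕ) : ℝ)) ≤ SS p (4 ^ K) := by
    intro p hp K hK
    have hp0 : (0 : ℝ) < p := by exact_mod_cast (by omega : 0 < p)
    induction K, hK using Nat.le_induction with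
    | base =>
      rw [sub_self, mul_zero]
      exact sum_nonneg fun _ _ => by positivity
    | succ K hK ih =>
      have hK0 : (0 : ℝ) < K := by exact_mod_cast (by omega : 0 < K)
      have hKx : K < 4 ^ K := Nat.lt_pow_self (by norm_num)
      have h1 : Real.log ((4 ^ K : ℕ) : ℝ) = K * Real.log 4 := by
        push_cast
        rw [Real.log_pow]
      have h2 := h (4 ^ K) (by omega) p hp (by
        rw [h1]
        have : (p : ℝ) ≤ K := by exact_mod_cast (by omega : p ≤ K)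
        nlinarith)
      have h3 := block_sum p (4 ^ K) (4 * 4 ^ K) (Nat.one_le_pow _ _ (by norm_num)) (by omega)
      have h4 : (1 : ℝ) / (6 * p) * (1 / K) ≤ (1 / ((4 * 4 ^ K : ℕ) : ℝ)) *
          (piAP (4 * 4 ^ K) p 1 - piAP (4 ^ K) p 1) := by
        refine le_trans ?_ (mul_le_mul_of_nonneg_left h2 (by positivity))
        rw [h1]
        push_cast
        have e : 1 / (4 * (4 : ℝ) ^ K) * (4 ^ K / (p * (K * Real.log 4))) =
            1 / (4 * Real.log 4 * p) * (1 / K) := by field_simp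
        rw [e]
        apply mul_le_mul_of_nonneg_right _ (by positivity)
        apply one_div_le_one_div_of_le (by positivity)
        nlinarith
      have h5 : Real.log ((K + 1 : ℕ) : ℝ) - Real.log K ≤ 1 / K := by
        push_cast
        rw [← Real.log_div (by positivity) hK0.ne']
        have := Real.log_le_sub_one_of_pos (show 0 < ((K : ℝ) + 1) / K by positivity)
        refine this.trans (le_of_eq ?_)
        field_simp
        ring
      have h6 : (1 : ℝ) / (6 * p) * (Real.log ((K + 1 : ℕ) : ℝ) - Real.log K) ≤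
          1 / (6 * p) * (1 / K) := mul_le_mul_of_nonneg_left h5 (by positivity)
      have e7 : 4 ^ (K + 1) = 4 * 4 ^ K := by ring
      rw [e7]
      have e8 : (1 : ℝ) / (6 * p) * (Real.log ((K + 1 : ℕ) : ℝ) - Real.log ((p + x2 : ℕ) : ℝ)) =
          1 / (6 * p) * (Real.log ((K + 1 : ℕ) : ℝ) - Real.log K) +
          1 / (6 * p) * (Real.log K - Real.log ((p + x2 : ℕ) : ℝ)) := by ring
      rw [e8]
      linarith
  -- conclusion
  have hlog : Tendsto (fun x : ℕ => Real.log (x : ℝ)) atTop atTop :=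
    Real.tendsto_log_atTop.comp tendsto_natCast_atTop_atTop
  have hll : Tendsto (fun x : ℕ => Real.log (Real.log (x : ℝ))) atTop atTop :=
    Real.tendsto_log_atTop.comp hlog
  have hsmall : ∀ᶠ t : ℝ in atTop, 1 + Real.log (t + x2) ≤ t / 2 := by
    have h1 : Tendsto (fun t : ℝ => t + x2) atTop atTop := tendsto_atTop_add_const_right _ _ tendsto_id
    have h2 := h1.eventually ((Real.isLittleO_log_id_atTop).def (show (0 : ℝ) < 1 / 4 by norm_num))
    filter_upwards [h2, eventually_ge_atTop (x2 : ℝ), eventually_ge_atTop (8 + x2 : ℝ)] with t ht h3 h4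
    rw [id, Real.norm_eq_abs, Real.norm_eq_abs] at ht
    have h5 : |t + (x2 : ℝ)| = t + x2 := abs_of_nonneg (by
      have : (0 : ℝ) ≤ x2 := Nat.cast_nonneg _
      linarith)
    rw [h5] at ht
    have := le_abs_self (Real.log (t + x2))
    linarith
  have hbig : ∀ᶠ s : ℝ in atTop, (x2 : ℝ) + 1 + Real.log s ≤ s / 2 - 1 := by
    filter_upwards [(Real.isLittleO_log_id_atTop).def (show (0 : ℝ) < 1 / 4 by norm_num),
      eventually_ge_atTop (4 * (x2 + 2) : ℝ)] with s hs h3
    rw [id, Real.norm_eq_abs, Real.norm_eq_abs, abs_of_nonneg (a := s) (by linarith [(Nat.cast_nonneg x2 : (0:ℝ) ≤ x2)])] at hs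
    have := le_abs_self (Real.log s)
    linarith
  have ev := ((hll.eventually hsmall).and (hlog.eventually hbig)).and
    ((hlog.eventually_ge_atTop 10).and (eventually_ge_atTop 2))
  obtain ⟨y0, hy0⟩ := eventually_atTop.1 ev
  refine ⟨y0, fun y hy p hp hpl => ?_⟩
  obtain ⟨⟨h1, h2⟩, h3, h4⟩ := hy0 y hy
  set s := Real.log y with hs
  set t := Real.log s with ht
  have hp0 : (0 : ℝ) < p := by exact_mod_cast (by omega : 0 < p)
  set K := Nat.log 4 y with hK
  have hKy : 4 ^ K ≤ y := Nat.pow_log_le_self 4 (by omega)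
  have hKy2 : y < 4 ^ (K + 1) := Nat.lt_pow_succ_log_self (by norm_num) y
  have hyr : (0 : ℝ) < y := by exact_mod_cast (by omega : 0 < y)
  have h5 : s ≤ (K + 1) * Real.log 4 := by
    have h6 : Real.log (y : ℝ) ≤ Real.log ((4 ^ (K + 1) : ℕ) : ℝ) :=
      Real.log_le_log hyr (by exact_mod_cast hKy2.le)
    push_cast at h6
    rw [Real.log_pow] at h6
    push_cast at h6
    exact h6
  have hK0 : (0 : ℝ) ≤ K := Nat.cast_nonneg _
  have h6 : s / 2 ≤ K := by
    nlinarith
  have h7 : p + x2 ≤ K := by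
    have : (p : ℝ) + x2 ≤ K := by linarith
    exact_mod_cast this
  have h8 := step p hp K h7
  have h9 : Real.log (s / 2) ≤ Real.log K := Real.log_le_log (by linarith) h6
  rw [Real.log_div (by linarith) (by norm_num)] at h9
  have h10 : Real.log ((p + x2 : ℕ) : ℝ) ≤ Real.log (t + x2) := by
    push_cast
    apply Real.log_le_log (by positivity)
    linarith
  have hl2 := Real.log_two_lt_d9
  have h11 : t / 2 ≤ Real.log K - Real.log ((p + x2 : ℕ) : ℝ) := by linarith
  calc t / (12 * p) = (1 / (6 * (p : ℝ))) * (t / 2) := by field_simp; ring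
    _ ≤ (1 / (6 * (p : ℝ))) * (Real.log K - Real.log ((p + x2 : ℕ) : ℝ)) :=
        mul_le_mul_of_nonneg_left h11 (by positivity)
    _ ≤ SS p (4 ^ K) := h8
    _ ≤ SS p y := SS_mono p hKy

end Pool.Agent.X27.CY
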