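import Mathlib
import Pool.Agent.X27.CY.Crt
import Pool.Agent.H692R2.USS.T1

set_option autoImplicit false

/-!
# Elementary sums and counts
-/

namespace Pool.Agent.X27.CY

open Finset

lemma class_count {M : ℕ} (hM : 0 < M) (v A L : ℕ) :
    (((Ico A (A + L)).filter (fun c => c % M = v % M)).card : ℝ) ≤ (L : ℝ) / M + 1 := by
  have hf : ∀ c, ((c % M) % M = v % M) ↔ c % M = v % M := fun c => by rw [Nat.mod_mod]
  have h := (card_interval_nat (fun c => c % M = v % M) hM hf A L).2
  have h1 : ((range M).filter (fun c => c % M = v % M)).card ≤ 1 := by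
    rw [card_le_one]
    intro a ha b hb
    rw [mem_filter, mem_range] at ha hb
    have h2 := ha.2.trans hb.2.symm
    rwa [Nat.mod_eq_of_lt ha.1, Nat.mod_eq_of_lt hb.1] at h2
  have h2 : ((Ico A (A + L)).filter (fun c => c % M = v % M)).card ≤ L / M + 1 := by
    refine h.trans ?_
    calc (L / M + 1) * _ ≤ (L / M + 1) * 1 := Nat.mul_le_mul_left _ h1
      _ = _ := mul_one _
  have h3 : (((Ico A (A + L)).filter (fun c => c % M = v % M)).card : ℝ) ≤ ((L / M : ℕ) : ℝ) + 1 := by
    exact_mod_cast h2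
  have h4 : ((L / M : ℕ) : ℝ) ≤ (L : ℝ) / M := Nat.cast_div_le
  linarith

lemma dvd_count {M : ℕ} (hM : 0 < M) (A L : ℕ) :
    (((Ico A (A + L)).filter (fun c => M ∣ c)).card : ℝ) ≤ (L : ℝ) / M + 1 := by
  have h := class_count hM 0 A L
  refine le_trans (le_of_eq ?_) h
  congr 2
  apply filter_congr
  intro c _
  rw [Nat.zero_mod, Nat.dvd_iff_mod_eq_zero]

lemma sum_inv_sq (z P : ℕ) (hz : 1 ≤ z) : ∑ p ∈ Ioc z P, 1 / (p : ℝ) ^ 2 ≤ 1 / (z : ℝ) := by
  rcases le_or_gt z P with h | h
  · have h1 := sum_Ioc_inv_sq_le_sub (α := ℝ) (by omega : z ≠ 0) h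
    have h2 : (0 : ℝ) ≤ (P : ℝ)⁻¹ := by positivity
    simp only [one_div]
    linarith
  · rw [Ioc_eq_empty (by omega), sum_empty]
    positivity

lemma sum_inv_32 (z P : ℕ) (hz : 1 ≤ z) :
    ∑ p ∈ Ioc z P, 1 / ((p : ℝ) * Real.sqrt p) ≤ 2 / Real.sqrt z := by
  rcases le_or_gt z P with h | h
  · have key : ∑ p ∈ Ioc z P, 1 / ((p : ℝ) * Real.sqrt p) ≤ 2 / Real.sqrt z - 2 / Real.sqrt P := by
      induction P, h using Nat.le_induction with
      | base => simp
      | succ P hP ih =>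
        rw [← Finset.insert_Ioc_right_eq_Ioc_add_one (by omega), sum_insert (by simp)]
        have hP0 : (0 : ℝ) < P := by exact_mod_cast (by omega : 0 < P)
        have ha : 0 < Real.sqrt P := Real.sqrt_pos.2 hP0
        have hb : 0 < Real.sqrt ((P + 1 : ℕ) : ℝ) := Real.sqrt_pos.2 (by positivity)
        have hab : Real.sqrt P ≤ Real.sqrt ((P + 1 : ℕ) : ℝ) := Real.sqrt_le_sqrt (by push_cast; linarith)
        have ha2 : Real.sqrt P ^ 2 = P := Real.sq_sqrt hP0.le
        have hb2 : Real.sqrt ((P + 1 : ℕ) : ℝ) ^ 2 = P + 1 := by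
          rw [Real.sq_sqrt (by positivity)]; push_cast; ring
        have hb3 : ((P + 1 : ℕ) : ℝ) = Real.sqrt ((P + 1 : ℕ) : ℝ) ^ 2 := by
          rw [hb2]; push_cast; ring
        set a := Real.sqrt P with hadef
        set b := Real.sqrt ((P + 1 : ℕ) : ℝ) with hbdef
        have h1 : 1 / (((P + 1 : ℕ) : ℝ) * b) ≤ 2 / a - 2 / b := by
          rw [hb3]
          have e : 2 / a - 2 / b = 2 * (b - a) / (a * b) := by field_simp
          rw [e, div_le_div_iff₀ (by positivity) (by positivity)]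
          have h2 : (b - a) * (b + a) = 1 := by nlinarith
          have h3 : 1 ≤ (b - a) * (2 * b) := by nlinarith [sub_nonneg.2 hab]
          have h4 : 0 < b ^ 2 := by positivity
          calc 1 * (a * b) ≤ ((b - a) * (2 * b)) * (a * b) :=
                mul_le_mul_of_nonneg_right h3 (by positivity)
            _ ≤ ((b - a) * (2 * b)) * (b * b) := by
                apply mul_le_mul_of_nonneg_left _ (by linarith)
                apply mul_le_mul_of_nonneg_right hab hb.le
            _ = 2 * (b - a) * (b ^ 2 * b) := by ring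
        linarith
    have : 0 ≤ 2 / Real.sqrt P := by positivity
    linarith
  · rw [Ioc_eq_empty (by omega), sum_empty]
    positivity

lemma harm (n : ℕ) : ∑ m ∈ Icc 1 n, 1 / (m : ℝ) ≤ 1 + Real.log n := by
  have h := harmonic_le_one_add_log n
  rw [harmonic_eq_sum_Icc] at h
  push_cast at h
  simpa only [one_div] using h

lemma harm_sqrt (n : ℕ) : ∑ m ∈ Icc 1 n, 1 / Real.sqrt m ≤ 2 * Real.sqrt n := by
  induction n with
  | zero => simp
  | succ n ih =>
    rw [← Finset.insert_Icc_right_eq_Icc_add_one (by omega), sum_insert (by simp)]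
    have hb : 0 < Real.sqrt ((n + 1 : ℕ) : ℝ) := Real.sqrt_pos.2 (by positivity)
    have ha : 0 ≤ Real.sqrt n := Real.sqrt_nonneg _
    have hab : Real.sqrt n ≤ Real.sqrt ((n + 1 : ℕ) : ℝ) := Real.sqrt_le_sqrt (by push_cast; linarith)
    have ha2 : Real.sqrt n ^ 2 = n := Real.sq_sqrt (Nat.cast_nonneg _)
    have hb2 : Real.sqrt ((n + 1 : ℕ) : ℝ) ^ 2 = n + 1 := by
      rw [Real.sq_sqrt (by positivity)]; push_cast; ring
    have h1 : 1 / Real.sqrt ((n + 1 : ℕ) : ℝ) ≤ 2 * Real.sqrt ((n + 1 : ℕ) : ℝ) - 2 * Real.sqrt n := by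
      rw [div_le_iff₀ hb]
      nlinarith
    linarith

/-- the number of the primes up to `P` -/
lemma prime_count (P : ℕ) (hP : 2 ≤ P) :
    (((Icc 1 P).filter Nat.Prime).card : ℝ) ≤ 44 * P / Real.log P := by
  have h := Pool.Agent.H692R2.USS.t1_brun_titchmarsh 0 1 (P + 1) (by omega) le_rfl
  rw [Nat.totient_one, Nat.cast_one, div_one, mul_one] at h
  have hP1 : (1 : ℝ) < P := by exact_mod_cast (by omega : 1 < P)
  have hlog : 0 < Real.log P := Real.log_pos hP1
  have h1 : (((Icc 1 P).filter Nat.Prime).card : ℝ) ≤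
      (((range (P + 1)).filter (fun k => (0 + k * 1).Prime)).card : ℝ) := by
    have : (Icc 1 P).filter Nat.Prime ⊆ (range (P + 1)).filter (fun k => (0 + k * 1).Prime) := by
      intro p hp
      rw [mem_filter, mem_Icc] at hp
      rw [mem_filter, mem_range, zero_add, mul_one]
      exact ⟨by omega, hp.2⟩
    exact_mod_cast card_le_card this
  refine h1.trans (h.trans ?_)
  have h2 : Real.log P ≤ Real.log ((P + 1 : ℕ) : ℝ) := Real.log_le_log (by linarith) (by push_cast; linarith)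
  have h3 : 22 * ((P + 1 : ℕ) : ℝ) / Real.log ((P + 1 : ℕ) : ℝ) ≤ 22 * ((P + 1 : ℕ) : ℝ) / Real.log P :=
    div_le_div_of_nonneg_left (by positivity) hlog h2
  refine h3.trans ?_
  apply div_le_div_of_nonneg_right _ hlog.le
  push_cast
  linarith

/-- the number of the primes `q ≡ 1` modulo the prime `p` with `A ≤ p m q < A + L` -/
lemma R_bt {p m A L : ℕ} (hp : p.Prime) (hm : 0 < m) (T : Finset ℕ)
    (hT : ∀ q ∈ T, q.Prime ∧ q % p = 1 % p ∧ A ≤ p * m * q ∧ p * m * q < A + L) :
    (T.card : ℝ) ≤ 44 * ((L / (p ^ 2 * m) + 2 : ℕ) : ℝ) / Real.log ((L / (p ^ 2 * m) + 2 : ℕ) : ℝ) := by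
  rcases T.eq_empty_or_nonempty with rfl | hne
  · rw [card_empty, Nat.cast_zero]
    have h1 : 0 ≤ Real.log ((L / (p ^ 2 * m) + 2 : ℕ) : ℝ) := Real.log_natCast_nonneg _
    positivity
  · obtain ⟨q₀, hq₀, hmin⟩ : ∃ q₀ ∈ T, ∀ q ∈ T, q₀ ≤ q :=
      ⟨T.min' hne, T.min'_mem hne, fun q hq => T.min'_le q hq⟩
    have hbt := Pool.Agent.H692R2.USS.t1_brun_titchmarsh q₀ p (L / (p ^ 2 * m) + 2)
      (Nat.le_add_left 2 _) hp.one_lt.le
    have hφ : (p : ℝ) / Nat.totient p ≤ 2 := by
      rw [Nat.totient_prime hp, Nat.cast_sub hp.one_lt.le, Nat.cast_one]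
      have h2 : (2 : ℝ) ≤ p := by exact_mod_cast hp.two_le
      rw [div_le_iff₀ (by linarith)]
      linarith
    have hlog : 0 < Real.log ((L / (p ^ 2 * m) + 2 : ℕ) : ℝ) :=
      Real.log_pos (by exact_mod_cast (lt_of_lt_of_le one_lt_two (Nat.le_add_left 2 _)))
    have hc : T.card ≤ ((range (L / (p ^ 2 * m) + 2)).filter (fun k => (q₀ + k * p).Prime)).card := by
      have hrep : ∀ q ∈ T, q₀ + (q - q₀) / p * p = q := by
        intro q hq
        have h1 : q₀ % p = q % p := by rw [(hT q hq).2.1, (hT q₀ hq₀).2.1]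
        have h2 : p ∣ q - q₀ := (Nat.modEq_iff_dvd' (hmin q hq)).1 h1
        rw [Nat.div_mul_cancel h2]
        have := hmin q hq
        omega
      refine Finset.card_le_card_of_injOn (fun q => (q - q₀) / p) ?_ ?_
      · intro q hq
        have hq' : q ∈ T := hq
        rw [Finset.mem_coe, mem_filter, mem_range]
        refine ⟨?_, ?_⟩
        · have e := hrep q hq'
          have h1 := (hT q hq').2.2.2
          have h2 := (hT q₀ hq₀).2.2.1
          set k := (q - q₀) / p with hk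
          have h3 : k * (p ^ 2 * m) < L := by
            have h4 : p * m * q = p * m * q₀ + k * (p ^ 2 * m) := by
              rw [← e]; ring
            omega
          have hpos : 0 < p ^ 2 * m := Nat.mul_pos (pow_pos hp.pos 2) hm
          have h5 : k ≤ L / (p ^ 2 * m) := (Nat.le_div_iff_mul_le hpos).2 h3.le
          exact Nat.lt_of_le_of_lt h5 (Nat.lt_add_of_pos_right (by norm_num))
        · simp only
          rw [hrep q hq']
          exact (hT q hq').1
      · intro q hq q' hq' h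
        simp only at h
        rw [← hrep q hq, ← hrep q' hq', h]
    have hc' : (T.card : ℝ) ≤
        (((range (L / (p ^ 2 * m) + 2)).filter (fun k => (q₀ + k * p).Prime)).card : ℝ) := by
      exact_mod_cast hc
    refine hc'.trans (hbt.trans ?_)
    apply div_le_div_of_nonneg_right _ hlog.le
    have : (0 : ℝ) ≤ ((L / (p ^ 2 * m) + 2 : ℕ) : ℝ) := Nat.cast_nonneg _
    nlinarith

/-- the trivial bound -/
lemma R_triv {p m A L : ℕ} (hp : p.Prime) (hm : 0 < m) (T : Finset ℕ)
    (hT : ∀ q ∈ T, q.Prime ∧ q % p = 1 % p ∧ A ≤ p * m * q ∧ p * m * q < A + L) :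
    (T.card : ℝ) ≤ (L : ℝ) / (p ^ 2 * m : ℕ) + 1 := by
  have hM : 0 < p ^ 2 * m := Nat.mul_pos (pow_pos hp.pos 2) hm
  refine le_trans ?_ (class_count hM (p * m) A L)
  have : T.card ≤ ((Ico A (A + L)).filter (fun c => c % (p ^ 2 * m) = (p * m) % (p ^ 2 * m))).card := by
    refine Finset.card_le_card_of_injOn (fun q => p * m * q) ?_ ?_
    · intro q hq
      have hq' : q ∈ T := hq
      rw [Finset.mem_coe, mem_filter, mem_Ico]
      refine ⟨⟨(hT q hq').2.2.1, (hT q hq').2.2.2⟩, ?_⟩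
      have h1 : q ≡ 1 [MOD p] := (hT q hq').2.1
      have h2 : p * m * q ≡ p * m * 1 [MOD p * m * p] := Nat.ModEq.mul_left' _ h1
      rw [mul_one] at h2
      have e : p ^ 2 * m = p * m * p := by ring
      rw [e]
      exact h2
    · intro q _ q' _ h
      simp only at h
      exact Nat.eq_of_mul_eq_mul_left (Nat.mul_pos hp.pos hm) h
  exact_mod_cast this

end Pool.Agent.X27.CY
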