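import Mathlib
import Pool.Agent.X27.CY.Basic
import Pool.Agent.X27.CY.Mert
import Pool.Agent.X27.CY.Sums
import Pool.Agent.X27.CY.SpLow
import Pool.Agent.H970R2.X.Btl

set_option autoImplicit false

/-!
# Few integers between consecutive cubes are free of small primes and not cyclic
-/

namespace Pool.Agent.X27.CY

open Finset

/-- `3 n^2 + 3 n`, the number of the integers between `n^3` and `(n+1)^3` -/
def LL (n : ℕ) : ℕ := 3 * n ^ 2 + 3 * n

/-- the integers between `n^3` and `(n+1)^3` -/
def II (n : ℕ) : Finset ℕ := Ico (n ^ 3 + 1) (n ^ 3 + 1 + LL n)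

lemma end_eq (n : ℕ) : n ^ 3 + 1 + LL n = (n + 1) ^ 3 := by
  unfold LL; ring

lemma mem_II {n c : ℕ} : c ∈ II n ↔ n ^ 3 < c ∧ c < (n + 1) ^ 3 := by
  unfold II
  rw [mem_Ico, end_eq]
  constructor <;> rintro ⟨h1, h2⟩ <;> exact ⟨by omega, h2⟩

open Classical in
/-- the integers free of primes `≤ z` which are not cyclic -/
noncomputable def BadSet (n z : ℕ) : Finset ℕ := (II n).filter (fun c => Free {0} (Pr z) c ∧ ¬ Cyc c)

lemma free_zero {z c p : ℕ} (h : Free {0} (Pr z) c) (hp : p.Prime) (hd : p ∣ c) : z < p := by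
  by_contra hcon
  push Not at hcon
  refine h p ?_ 0 (mem_singleton_self 0) (by rwa [add_zero])
  unfold Pr
  rw [mem_filter, mem_Icc]
  exact ⟨⟨hp.one_lt.le, hcon⟩, hp⟩

/-- the sums over the primes `q` -/
noncomputable def TT (n m p : ℕ) : Finset ℕ := (Icc 1 ((n + 1) ^ 3)).filter (fun q => q.Prime ∧ q % p = 1 % p ∧
  n ^ 3 + 1 ≤ p * m * q ∧ p * m * q < n ^ 3 + 1 + LL n)

noncomputable def F1 (n z : ℕ) : Finset ℕ :=
  (Ioc z (Nat.sqrt ((n + 1) ^ 3))).biUnion (fun p => (II n).filter (fun c => p ^ 2 ∣ c))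

noncomputable def F2 (n z : ℕ) : Finset ℕ := ((Ioc z (LL n)).filter Nat.Prime).biUnion fun p =>
  ((QQ p (LL n)).filter (fun q => p * q ≤ LL n)).biUnion fun q => (II n).filter (fun c => p * q ∣ c)

noncomputable def PP (n z m : ℕ) : Finset ℕ :=
  (Ioc z (Nat.sqrt ((n + 1) ^ 3))).filter (fun p => p.Prime ∧ p ^ 2 * m < (n + 1) ^ 3)

noncomputable def F3 (n z : ℕ) : Finset ℕ := (Icc 1 n).biUnion fun m =>
  (PP n z m).biUnion fun p => (TT n m p).image (fun q => p * m * q)

lemma bad_subset {n z : ℕ} (hn : 1 ≤ n) : BadSet n z ⊆ F1 n z ∪ (F2 n z ∪ F3 n z) := by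
  classical
  intro c hc
  unfold BadSet at hc
  rw [mem_filter] at hc
  obtain ⟨hcI, hfree, hnc⟩ := hc
  have hcI' := hcI
  rw [mem_II] at hcI'
  have hc0 : 0 < c := by omega
  by_cases h1 : ∃ p : ℕ, p.Prime ∧ p ^ 2 ∣ c
  · obtain ⟨p, hp, hpc⟩ := h1
    apply mem_union_left
    unfold F1
    rw [mem_biUnion]
    refine ⟨p, ?_, mem_filter.2 ⟨hcI, hpc⟩⟩
    rw [mem_Ioc]
    refine ⟨free_zero hfree hp ((dvd_pow_self p (by norm_num)).trans hpc), ?_⟩
    rw [Nat.le_sqrt']
    exact (Nat.le_of_dvd hc0 hpc).trans hcI'.2.le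
  · apply mem_union_right
    push Not at h1
    have h2 : ∃ p q : ℕ, p.Prime ∧ q.Prime ∧ p ∣ c ∧ q ∣ c ∧ p ∣ q - 1 := by
      by_contra hcon
      push Not at hcon
      exact hnc (cyc_of hc0 h1 hcon)
    obtain ⟨p, q, hp, hq, hpc, hqc, hpq⟩ := h2
    have hzp := free_zero hfree hp hpc
    have hltpq : p < q := by
      have h3 : 0 < q - 1 := by have := hq.two_le; omega
      have := Nat.le_of_dvd h3 hpq
      omega
    have hmod : q ≡ 1 [MOD p] := ((Nat.modEq_iff_dvd' hq.one_lt.le).2 hpq).symm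
    have hco : Nat.Coprime p q := (Nat.coprime_primes hp hq).2 hltpq.ne
    have hpqc : p * q ∣ c := hco.mul_dvd_of_dvd_of_dvd hpc hqc
    by_cases hL : p * q ≤ LL n
    · apply mem_union_left
      unfold F2
      rw [mem_biUnion]
      refine ⟨p, ?_, ?_⟩
      · rw [mem_filter, mem_Ioc]
        refine ⟨⟨hzp, ?_⟩, hp⟩
        have : p * 1 ≤ p * q := Nat.mul_le_mul_left _ hq.one_lt.le
        omega
      · rw [mem_biUnion]
        refine ⟨q, ?_, mem_filter.2 ⟨hcI, hpqc⟩⟩
        rw [mem_filter]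
        refine ⟨?_, hL⟩
        unfold QQ
        rw [mem_filter, mem_Icc]
        refine ⟨⟨hq.one_lt.le, ?_⟩, hq, hmod⟩
        have : 1 * q ≤ p * q := Nat.mul_le_mul_right _ hp.one_lt.le
        omega
    · push Not at hL
      apply mem_union_right
      obtain ⟨m, hm⟩ := hpqc
      have hm0 : 0 < m := by
        rcases Nat.eq_zero_or_pos m with h | h
        · subst h; omega
        · exact h
      have hmn : m ≤ n := by
        by_contra hcon
        push Not at hcon
        have h3 : LL n * (n + 1) ≤ (p * q) * m := Nat.mul_le_mul hL.le hcon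
        have h4 : (n + 1) ^ 3 ≤ LL n * (n + 1) := by
          unfold LL
          nlinarith [sq_nonneg n, mul_pos (by omega : 0 < n) (by omega : 0 < n)]
        omega
      have hp2m : p ^ 2 * m < (n + 1) ^ 3 := by
        have h3 : p ^ 2 * m ≤ p * q * m := by
          rw [sq]
          exact Nat.mul_le_mul_right _ (Nat.mul_le_mul_left _ hltpq.le)
        omega
      unfold F3
      rw [mem_biUnion]
      refine ⟨m, mem_Icc.2 ⟨hm0, hmn⟩, ?_⟩
      rw [mem_biUnion]
      refine ⟨p, ?_, ?_⟩
      · unfold PP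
        rw [mem_filter, mem_Ioc]
        refine ⟨⟨hzp, ?_⟩, hp, hp2m⟩
        rw [Nat.le_sqrt']
        have : p ^ 2 * 1 ≤ p ^ 2 * m := Nat.mul_le_mul_left _ hm0
        omega
      · rw [mem_image]
        refine ⟨q, ?_, by rw [hm]; ring⟩
        have e : p * m * q = c := by rw [hm]; ring
        unfold TT
        rw [mem_filter, mem_Icc, e, end_eq]
        refine ⟨⟨hq.one_lt.le, ?_⟩, hq, hmod, by omega, hcI'.2⟩
        exact (Nat.le_of_dvd hc0 hqc).trans hcI'.2.le

lemma card_F1 (n z : ℕ) (hz : 1 ≤ z) :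
    ((F1 n z).card : ℝ) ≤ LL n / z + Nat.sqrt ((n + 1) ^ 3) := by
  have h1 : ((F1 n z).card : ℝ) ≤ ∑ p ∈ Ioc z (Nat.sqrt ((n + 1) ^ 3)),
      (((II n).filter (fun c => p ^ 2 ∣ c)).card : ℝ) := by
    unfold F1
    exact_mod_cast card_biUnion_le
  refine h1.trans ?_
  have h2 : ∀ p ∈ Ioc z (Nat.sqrt ((n + 1) ^ 3)),
      (((II n).filter (fun c => p ^ 2 ∣ c)).card : ℝ) ≤ (LL n : ℝ) * (1 / (p : ℝ) ^ 2) + 1 := by
    intro p hp
    rw [mem_Ioc] at hp
    have h3 := dvd_count (M := p ^ 2) (pow_pos (by omega) 2) (n ^ 3 + 1) (LL n)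
    rw [mul_one_div]
    push_cast at h3
    exact h3
  refine (sum_le_sum h2).trans ?_
  rw [sum_add_distrib, ← mul_sum, sum_const, Nat.card_Ioc, nsmul_eq_mul, mul_one]
  have h4 := sum_inv_sq z (Nat.sqrt ((n + 1) ^ 3)) hz
  have h5 : ((Nat.sqrt ((n + 1) ^ 3) - z : ℕ) : ℝ) ≤ Nat.sqrt ((n + 1) ^ 3) := by
    exact_mod_cast Nat.sub_le _ _
  have h6 : (LL n : ℝ) * ∑ p ∈ Ioc z (Nat.sqrt ((n + 1) ^ 3)), 1 / (p : ℝ) ^ 2 ≤ LL n * (1 / z) :=
    mul_le_mul_of_nonneg_left h4 (Nat.cast_nonneg _)
  rw [mul_one_div] at h6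
  linarith

/-- upper bound for the sum of the reciprocals of the primes `q ≡ 1` modulo `p` -/
lemma SS_upper : ∃ C : ℝ, 1 ≤ C ∧ ∀ p y : ℕ, p.Prime → 3 ≤ y → 1 ≤ Real.log (Real.log y) →
    (1 / (p : ℝ)) * SS p y ≤ C * Real.log (Real.log y) * (1 / (p : ℝ) ^ 2) +
      2 * (1 / ((p : ℝ) * Real.sqrt p)) := by
  obtain ⟨C, hC, h⟩ := Pool.Agent.H970R2.X.btl
  refine ⟨4 * C + 1, by linarith, fun p y hp hy hll => ?_⟩
  have hp2 : (2 : ℝ) ≤ p := by exact_mod_cast hp.two_le
  have hp0 : (0 : ℝ) < p := by linarith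
  set w := Real.log (Real.log y) with hw
  -- the small primes
  have small : ∀ T : ℕ, T ≤ p ^ 2 → SS p T ≤ (1 + 2 * Real.sqrt p) / p := by
    intro T hT
    have h1 : SS p T ≤ ∑ k ∈ Icc 1 p, (1 / (p : ℝ)) * (1 / k) := by
      unfold SS
      have hinj : Set.InjOn (fun q : ℕ => q / p) (QQ p T) := by
        intro q hq q' hq' he
        unfold QQ at hq hq'
        rw [Finset.mem_coe, mem_filter] at hq hq'
        have e1 : q % p = 1 := by
          have := hq.2.2
          rw [Nat.ModEq, Nat.mod_eq_of_lt hp.one_lt] at this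
          exact this
        have e2 : q' % p = 1 := by
          have := hq'.2.2
          rw [Nat.ModEq, Nat.mod_eq_of_lt hp.one_lt] at this
          exact this
        simp only at he
        rw [← Nat.div_add_mod q p, ← Nat.div_add_mod q' p, he, e1, e2]
      calc ∑ q ∈ QQ p T, 1 / (q : ℝ) ≤ ∑ q ∈ QQ p T, (1 / (p : ℝ)) * (1 / ((q / p : ℕ) : ℝ)) := by
            apply sum_le_sum
            intro q hq
            unfold QQ at hq
            rw [mem_filter, mem_Icc] at hq
            have e1 : q % p = 1 := by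
              have := hq.2.2
              rw [Nat.ModEq, Nat.mod_eq_of_lt hp.one_lt] at this
              exact this
            have hk : 0 < q / p := by
              rcases Nat.eq_zero_or_pos (q / p) with h0 | h0
              · have := Nat.div_add_mod q p
                rw [h0, e1] at this
                have h5 := hq.2.1.two_le
                omega
              · exact h0
            have hk' : (0 : ℝ) < ((q / p : ℕ) : ℝ) := by exact_mod_cast hk
            rw [one_div_mul_one_div]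
            apply one_div_le_one_div_of_le (by positivity)
            have := Nat.mul_div_le q p
            exact_mod_cast this
        _ = ∑ k ∈ (QQ p T).image (fun q => q / p), (1 / (p : ℝ)) * (1 / (k : ℝ)) := by
            rw [sum_image hinj]
        _ ≤ ∑ k ∈ Icc 1 p, (1 / (p : ℝ)) * (1 / k) := by
            apply sum_le_sum_of_subset_of_nonneg
            · intro k hk
              rw [mem_image] at hk
              obtain ⟨q, hq, rfl⟩ := hk
              unfold QQ at hq
              rw [mem_filter, mem_Icc] at hq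
              have e1 : q % p = 1 := by
                have := hq.2.2
                rw [Nat.ModEq, Nat.mod_eq_of_lt hp.one_lt] at this
                exact this
              rw [mem_Icc]
              constructor
              · rcases Nat.eq_zero_or_pos (q / p) with h0 | h0
                · have := Nat.div_add_mod q p
                  rw [h0, e1] at this
                  have h5 := hq.2.1.two_le
                  omega
                · exact h0
              · apply Nat.div_le_of_le_mul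
                have := hq.1.2.trans hT
                rwa [sq] at this
            · intro _ _ _; positivity
    refine h1.trans ?_
    rw [← mul_sum]
    have h2 := harm p
    have h3 : Real.log p ≤ 2 * Real.sqrt p := by
      have h4 := Real.log_le_sub_one_of_pos (Real.sqrt_pos.2 hp0)
      rw [Real.log_sqrt hp0.le] at h4
      linarith [Real.sqrt_nonneg (p : ℝ)]
    rw [one_div_mul_eq_div]
    apply div_le_div_of_nonneg_right _ hp0.le
    linarith
  have hsq : Real.sqrt p * Real.sqrt p = p := Real.mul_self_sqrt hp0.le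
  have hsq0 : 0 < Real.sqrt p := Real.sqrt_pos.2 hp0
  have e0 : (1 / (p : ℝ)) * ((1 + 2 * Real.sqrt p) / p) = 1 / (p : ℝ) ^ 2 + 2 * (1 / ((p : ℝ) * Real.sqrt p)) := by
    have : (p : ℝ) * Real.sqrt p = p * Real.sqrt p := rfl
    field_simp
    nlinarith
  rcases le_or_gt y (p ^ 2) with hyp | hyp
  · have h1 := small y hyp
    have h2 : (1 / (p : ℝ)) * SS p y ≤ (1 / (p : ℝ)) * ((1 + 2 * Real.sqrt p) / p) :=
      mul_le_mul_of_nonneg_left h1 (by positivity)
    rw [e0] at h2
    have h3 : 1 / (p : ℝ) ^ 2 ≤ (4 * C + 1) * w * (1 / (p : ℝ) ^ 2) := by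
      have h4 : 1 ≤ (4 * C + 1) * w := by nlinarith
      have h5 : 0 ≤ 1 / (p : ℝ) ^ 2 := by positivity
      nlinarith
    linarith
  · have h1 := small (p ^ 2) le_rfl
    have hb := h p 1 ((p ^ 2 : ℕ) : ℝ) y hp.one_lt.le (by push_cast; exact le_rfl)
      (by
        have : 3 ≤ p ^ 2 := by nlinarith [hp.two_le]
        exact_mod_cast this) (by exact_mod_cast hyp.le)
    rw [Nat.floor_natCast] at hb
    have hsplit : SS p y ≤ SS p (p ^ 2) + ∑ q ∈ (Icc 1 y).filter (fun q : ℕ => q.Prime ∧
        ((p ^ 2 : ℕ) : ℝ) < (q : ℝ) ∧ q % p = 1 % p), 1 / (q : ℝ) := by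
      unfold SS
      rw [← sum_union]
      · apply sum_le_sum_of_subset_of_nonneg
        · intro q hq
          unfold QQ at hq ⊢
          rw [mem_filter, mem_Icc] at hq
          rw [mem_union, mem_filter, mem_filter, mem_Icc, mem_Icc]
          rcases le_or_gt q (p ^ 2) with h5 | h5
          · exact Or.inl ⟨⟨hq.1.1, h5⟩, hq.2⟩
          · exact Or.inr ⟨hq.1, hq.2.1, by exact_mod_cast h5, hq.2.2⟩
        · intro _ _ _; positivity
      · rw [disjoint_left]
        intro q hq hq'
        unfold QQ at hq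
        rw [mem_filter, mem_Icc] at hq hq'
        have h5 : p ^ 2 < q := by exact_mod_cast hq'.2.2.1
        omega
    have hφ : C / (Nat.totient p : ℝ) ≤ 2 * C / p := by
      rw [Nat.totient_prime hp, Nat.cast_sub hp.one_lt.le, Nat.cast_one]
      rw [div_le_div_iff₀ (by linarith) hp0]
      nlinarith
    have hly : 1 ≤ Real.log y := by
      have := Real.one_lt_exp_iff.2 (lt_of_lt_of_le one_pos hll)
      by_contra hcon
      push Not at hcon
      have h5 : Real.log (Real.log y) ≤ 0 := by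
        rcases le_or_gt (Real.log y) 0 with h6 | h6
        · have h7 : 0 ≤ Real.log (y : ℝ) := Real.log_natCast_nonneg _
          have h8 : Real.log (y : ℝ) = 0 := le_antisymm h6 h7
          rw [h8, Real.log_zero]
        · exact Real.log_nonpos h6.le hcon.le
      linarith
    have hlp : 1 ≤ Real.log ((p ^ 2 : ℕ) : ℝ) := by
      push_cast
      rw [Real.log_pow]
      have h5 := Real.log_two_gt_d9
      have h6 : Real.log 2 ≤ Real.log p := Real.log_le_log (by norm_num) hp2
      push_cast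
      linarith
    have hll2 : Real.log (Real.log y / Real.log ((p ^ 2 : ℕ) : ℝ)) ≤ w := by
      apply Real.log_le_log (by positivity)
      exact div_le_self (by linarith) hlp
    have h6 : ∑ q ∈ (Icc 1 y).filter (fun q : ℕ => q.Prime ∧
        ((p ^ 2 : ℕ) : ℝ) < (q : ℝ) ∧ q % p = 1 % p), 1 / (q : ℝ) ≤ 2 * C / p * (w + 1) := by
      refine hb.trans ?_
      have h7 : C / (Nat.totient p : ℝ) * (Real.log (Real.log y / Real.log ((p ^ 2 : ℕ) : ℝ)) + 1) ≤
          C / (Nat.totient p : ℝ) * (w + 1) := by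
        apply mul_le_mul_of_nonneg_left (by linarith)
        positivity
      refine h7.trans ?_
      apply mul_le_mul_of_nonneg_right hφ (by linarith)
    have h7 : (1 / (p : ℝ)) * SS p y ≤ (1 / (p : ℝ)) * ((1 + 2 * Real.sqrt p) / p) +
        (1 / (p : ℝ)) * (2 * C / p * (w + 1)) := by
      rw [← mul_add]
      apply mul_le_mul_of_nonneg_left _ (by positivity)
      linarith
    rw [e0] at h7
    have h8 : (1 / (p : ℝ)) * (2 * C / p * (w + 1)) ≤ 4 * C * w * (1 / (p : ℝ) ^ 2) := by
      have e1 : (1 / (p : ℝ)) * (2 * C / p * (w + 1)) = (2 * C * (w + 1)) * (1 / (p : ℝ) ^ 2) := by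
        field_simp
      rw [e1]
      apply mul_le_mul_of_nonneg_right _ (by positivity)
      nlinarith
    have h9 : 1 / (p : ℝ) ^ 2 ≤ w * (1 / (p : ℝ) ^ 2) := by
      have h5 : 0 ≤ 1 / (p : ℝ) ^ 2 := by positivity
      nlinarith
    nlinarith

end Pool.Agent.X27.CY
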