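import Mathlib
import Pool.Agent.X27.CY.Bad

set_option autoImplicit false

/-!
# Few integers between consecutive cubes are free of small primes and not cyclic: bounds
-/

namespace Pool.Agent.X27.CY

open Finset Filter

lemma card_F2 : ∃ C : ℝ, 1 ≤ C ∧ ∀ n z : ℕ, 1 ≤ z → 3 ≤ LL n → 1 ≤ Real.log (Real.log (LL n)) →
    ((F2 n z).card : ℝ) ≤ 2 * LL n * (C * Real.log (Real.log (LL n)) * (1 / (z : ℝ)) +
      4 / Real.sqrt z) := by
  obtain ⟨C, hC, h⟩ := SS_upper
  refine ⟨C, hC, fun n z hz hL hll => ?_⟩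
  have h1 : ((F2 n z).card : ℝ) ≤ ∑ p ∈ (Ioc z (LL n)).filter Nat.Prime,
      ∑ q ∈ (QQ p (LL n)).filter (fun q => p * q ≤ LL n),
        (((II n).filter (fun c => p * q ∣ c)).card : ℝ) := by
    unfold F2
    have h2 : ((((Ioc z (LL n)).filter Nat.Prime).biUnion fun p =>
      ((QQ p (LL n)).filter (fun q => p * q ≤ LL n)).biUnion fun q =>
        (II n).filter (fun c => p * q ∣ c)).card) ≤ ∑ p ∈ (Ioc z (LL n)).filter Nat.Prime,
      ∑ q ∈ (QQ p (LL n)).filter (fun q => p * q ≤ LL n),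
        ((II n).filter (fun c => p * q ∣ c)).card :=
      card_biUnion_le.trans (sum_le_sum fun p _ => card_biUnion_le)
    exact_mod_cast h2
  refine h1.trans ?_
  have hL0 : (0 : ℝ) ≤ LL n := Nat.cast_nonneg _
  have h2 : ∀ p ∈ (Ioc z (LL n)).filter Nat.Prime,
      ∑ q ∈ (QQ p (LL n)).filter (fun q => p * q ≤ LL n),
        (((II n).filter (fun c => p * q ∣ c)).card : ℝ) ≤
      2 * LL n * (C * Real.log (Real.log (LL n)) * (1 / (p : ℝ) ^ 2) +
        2 * (1 / ((p : ℝ) * Real.sqrt p))) := by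
    intro p hp
    rw [mem_filter, mem_Ioc] at hp
    have hp0 : (0 : ℝ) < p := by exact_mod_cast hp.2.pos
    have h3 : ∀ q ∈ (QQ p (LL n)).filter (fun q => p * q ≤ LL n),
        (((II n).filter (fun c => p * q ∣ c)).card : ℝ) ≤ 2 * LL n * (1 / (p : ℝ)) * (1 / q) := by
      intro q hq
      rw [mem_filter] at hq
      unfold QQ at hq
      rw [mem_filter, mem_Icc] at hq
      have hq0 : (0 : ℝ) < q := by exact_mod_cast hq.1.2.1.pos
      have h4 := dvd_count (M := p * q) (Nat.mul_pos hp.2.pos hq.1.2.1.pos) (n ^ 3 + 1) (LL n)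
      have h5 : (1 : ℝ) ≤ LL n / ((p * q : ℕ) : ℝ) := by
        rw [one_le_div (by push_cast; positivity)]
        exact_mod_cast hq.2
      have e : 2 * LL n * (1 / (p : ℝ)) * (1 / q) = 2 * (LL n / ((p * q : ℕ) : ℝ)) := by
        push_cast
        field_simp
      rw [e]
      unfold II
      linarith
    refine (sum_le_sum h3).trans ?_
    rw [← mul_sum]
    have h4 : ∑ q ∈ (QQ p (LL n)).filter (fun q => p * q ≤ LL n), 1 / (q : ℝ) ≤ SS p (LL n) := by
      unfold SS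
      exact sum_le_sum_of_subset_of_nonneg (filter_subset _ _) fun _ _ _ => by positivity
    calc 2 * LL n * (1 / (p : ℝ)) * ∑ q ∈ (QQ p (LL n)).filter (fun q => p * q ≤ LL n), 1 / (q : ℝ)
        ≤ 2 * LL n * (1 / (p : ℝ)) * SS p (LL n) := mul_le_mul_of_nonneg_left h4 (by positivity)
      _ = 2 * LL n * ((1 / (p : ℝ)) * SS p (LL n)) := by ring
      _ ≤ _ := mul_le_mul_of_nonneg_left (h p (LL n) hp.2 hL hll) (by positivity)
  refine (sum_le_sum h2).trans ?_
  rw [← mul_sum]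
  apply mul_le_mul_of_nonneg_left _ (by positivity)
  have h3 : ∑ p ∈ (Ioc z (LL n)).filter Nat.Prime,
      (C * Real.log (Real.log (LL n)) * (1 / (p : ℝ) ^ 2) + 2 * (1 / ((p : ℝ) * Real.sqrt p))) ≤
      ∑ p ∈ Ioc z (LL n),
      (C * Real.log (Real.log (LL n)) * (1 / (p : ℝ) ^ 2) + 2 * (1 / ((p : ℝ) * Real.sqrt p))) :=
    sum_le_sum_of_subset_of_nonneg (filter_subset _ _) fun _ _ _ => by positivity
  refine h3.trans ?_
  rw [sum_add_distrib, ← mul_sum, ← mul_sum]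
  have h4 := sum_inv_sq z (LL n) hz
  have h5 := sum_inv_32 z (LL n) hz
  have h6 : C * Real.log (Real.log (LL n)) * ∑ p ∈ Ioc z (LL n), 1 / (p : ℝ) ^ 2 ≤
      C * Real.log (Real.log (LL n)) * (1 / (z : ℝ)) :=
    mul_le_mul_of_nonneg_left h4 (by positivity)
  have e : 4 / Real.sqrt z = 2 * (2 / Real.sqrt z) := by ring
  rw [e]
  linarith

/-- real bound for the number of `q` -/
lemma TT_bound {n m p : ℕ} (hp : p.Prime) (hm : 0 < m) (hmn : m ≤ n) (hn : 3 ≤ n) :
    ((TT n m p).card : ℝ) ≤ 352 * LL n / Real.log n * (1 / (p : ℝ) ^ 2) * (1 / m) +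
      (if n < p ^ 4 then (LL n : ℝ) * (1 / (p : ℝ) ^ 2) * (1 / m) + 1 else 0) := by
  have hT : ∀ q ∈ TT n m p, q.Prime ∧ q % p = 1 % p ∧ n ^ 3 + 1 ≤ p * m * q ∧
      p * m * q < n ^ 3 + 1 + LL n := by
    intro q hq
    unfold TT at hq
    rw [mem_filter] at hq
    exact hq.2
  have hp0 : (0 : ℝ) < p := by exact_mod_cast hp.pos
  have hm0 : (0 : ℝ) < m := by exact_mod_cast hm
  have hn0 : (3 : ℝ) ≤ n := by exact_mod_cast hn
  have hlogn : 0 < Real.log n := Real.log_pos (by linarith)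
  have hL0 : (0 : ℝ) ≤ LL n := Nat.cast_nonneg _
  by_cases hcase : n < p ^ 4
  · rw [if_pos hcase]
    have h := R_triv hp hm (TT n m p) hT
    have e : (LL n : ℝ) / ((p ^ 2 * m : ℕ) : ℝ) = (LL n : ℝ) * (1 / (p : ℝ) ^ 2) * (1 / m) := by
      push_cast
      field_simp
    rw [e] at h
    have : 0 ≤ 352 * LL n / Real.log n * (1 / (p : ℝ) ^ 2) * (1 / m) := by positivity
    linarith
  · rw [if_neg hcase, add_zero]
    push Not at hcase
    have h := R_bt hp hm (TT n m p) hT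
    set X : ℝ := (LL n : ℝ) / ((p ^ 2 * m : ℕ) : ℝ) with hX
    have hpm0 : (0 : ℝ) < ((p ^ 2 * m : ℕ) : ℝ) := by push_cast; positivity
    have hp2 : (p : ℝ) ^ 2 ≤ Real.sqrt n := by
      apply Real.le_sqrt_of_sq_le
      have : ((p ^ 4 : ℕ) : ℝ) ≤ n := by exact_mod_cast hcase
      push_cast at this
      calc ((p : ℝ) ^ 2) ^ 2 = (p : ℝ) ^ 4 := by ring
        _ ≤ (n : ℝ) := this
    have hsq : Real.sqrt n * Real.sqrt n = n := Real.mul_self_sqrt (by linarith)
    have hsq0 : 0 < Real.sqrt n := Real.sqrt_pos.2 (by linarith)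
    have hX3 : 3 * Real.sqrt n ≤ X := by
      rw [hX, le_div_iff₀ hpm0]
      push_cast
      have hmn' : (m : ℝ) ≤ n := by exact_mod_cast hmn
      have hLL : ((LL n : ℕ) : ℝ) = 3 * (n : ℝ) ^ 2 + 3 * n := by
        unfold LL
        push_cast
        ring
      rw [hLL]
      have h1 : (p : ℝ) ^ 2 * m ≤ Real.sqrt n * n := mul_le_mul hp2 hmn' hm0.le hsq0.le
      calc 3 * Real.sqrt n * ((p : ℝ) ^ 2 * m) ≤ 3 * Real.sqrt n * (Real.sqrt n * n) :=
            mul_le_mul_of_nonneg_left h1 (by positivity)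
        _ = 3 * (Real.sqrt n * Real.sqrt n) * n := by ring
        _ = 3 * n * n := by rw [hsq]
        _ ≤ _ := by nlinarith
    have hs1 : 1 ≤ Real.sqrt n := by
      rw [Real.one_le_sqrt]
      linarith
    have hN1 : ((LL n / (p ^ 2 * m) + 2 : ℕ) : ℝ) ≤ 2 * X := by
      push_cast
      have h1 : ((LL n / (p ^ 2 * m) : ℕ) : ℝ) ≤ X := by
        rw [hX]
        exact Nat.cast_div_le
      linarith
    have hN2 : X ≤ ((LL n / (p ^ 2 * m) + 2 : ℕ) : ℝ) := by
      have h6 : LL n < (LL n / (p ^ 2 * m) + 1) * (p ^ 2 * m) := by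
        rw [mul_comm]
        exact Nat.lt_mul_div_succ _ (Nat.mul_pos (pow_pos hp.pos 2) hm)
      rw [hX, div_le_iff₀ hpm0]
      have h7 : (LL n : ℝ) < ((LL n / (p ^ 2 * m) + 1 : ℕ) : ℝ) * ((p ^ 2 * m : ℕ) : ℝ) := by
        exact_mod_cast h6
      have h8 : ((LL n / (p ^ 2 * m) + 1 : ℕ) : ℝ) ≤ ((LL n / (p ^ 2 * m) + 2 : ℕ) : ℝ) := by
        push_cast; linarith
      nlinarith
    have hlogX : Real.log n / 2 ≤ Real.log ((LL n / (p ^ 2 * m) + 2 : ℕ) : ℝ) := by
      rw [← Real.log_sqrt (by linarith)]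
      apply Real.log_le_log hsq0
      linarith
    refine h.trans ?_
    have hX0 : 0 < X := by linarith
    calc 44 * ((LL n / (p ^ 2 * m) + 2 : ℕ) : ℝ) / Real.log ((LL n / (p ^ 2 * m) + 2 : ℕ) : ℝ)
        ≤ 44 * (2 * X) / (Real.log n / 2) := by
          apply div_le_div₀ (by positivity) (by linarith) (by positivity) hlogX
      _ = 176 * X / Real.log n := by field_simp; ring
      _ ≤ 352 * X / Real.log n := by
          apply div_le_div_of_nonneg_right _ hlogn.le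
          linarith
      _ = 352 * LL n / Real.log n * (1 / (p : ℝ) ^ 2) * (1 / m) := by
          rw [hX]
          push_cast
          field_simp

/-- the number of the primes `p` with `p ^ 2 * m < (n + 1) ^ 3` -/
lemma PP_card {n z m : ℕ} (hm : 0 < m) (hmn : m ≤ n) (hn : 3 ≤ n) :
    ((PP n z m).card : ℝ) ≤ 44 * Real.sqrt (((n : ℝ) + 1) ^ 3) / Real.log n * (1 / Real.sqrt m) := by
  have hn0 : (3 : ℝ) ≤ n := by exact_mod_cast hn
  have hm0 : (0 : ℝ) < m := by exact_mod_cast hm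
  have hlogn : 0 < Real.log n := Real.log_pos (by linarith)
  set P := Nat.sqrt ((n + 1) ^ 3 / m) with hP
  have hPn : n ≤ P := by
    rw [hP, Nat.le_sqrt', Nat.le_div_iff_mul_le hm]
    calc n ^ 2 * m ≤ n ^ 2 * n := Nat.mul_le_mul_left _ hmn
      _ ≤ (n + 1) ^ 3 := by nlinarith [sq_nonneg n]
  have h1 : PP n z m ⊆ (Icc 1 P).filter Nat.Prime := by
    intro p hp
    unfold PP at hp
    rw [mem_filter, mem_Ioc] at hp
    rw [mem_filter, mem_Icc]
    refine ⟨⟨hp.2.1.one_lt.le, ?_⟩, hp.2.1⟩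
    rw [hP, Nat.le_sqrt', Nat.le_div_iff_mul_le hm]
    exact hp.2.2.le
  have h2 : ((PP n z m).card : ℝ) ≤ (((Icc 1 P).filter Nat.Prime).card : ℝ) := by
    exact_mod_cast card_le_card h1
  have h3 := prime_count P (by omega)
  have hPr : (P : ℝ) ≤ Real.sqrt (((n : ℝ) + 1) ^ 3) * (1 / Real.sqrt m) := by
    have h4 : P ^ 2 * m ≤ (n + 1) ^ 3 := by
      have h5 : P ^ 2 ≤ (n + 1) ^ 3 / m := Nat.sqrt_le' _
      exact (Nat.le_div_iff_mul_le hm).1 h5
    have h5 : (P : ℝ) ^ 2 * m ≤ ((n : ℝ) + 1) ^ 3 := by exact_mod_cast h4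
    rw [mul_one_div, le_div_iff₀ (Real.sqrt_pos.2 hm0)]
    apply Real.le_sqrt_of_sq_le
    rw [mul_pow, Real.sq_sqrt hm0.le]
    exact h5
  have hlogP : Real.log n ≤ Real.log P := Real.log_le_log (by linarith) (by exact_mod_cast hPn)
  calc ((PP n z m).card : ℝ) ≤ 44 * P / Real.log P := h2.trans h3
    _ ≤ 44 * P / Real.log n := div_le_div_of_nonneg_left (by positivity) hlogn hlogP
    _ ≤ 44 * (Real.sqrt (((n : ℝ) + 1) ^ 3) * (1 / Real.sqrt m)) / Real.log n := by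
        apply div_le_div_of_nonneg_right _ hlogn.le
        linarith
    _ = _ := by ring

lemma card_F3 {n z : ℕ} (hz : 1 ≤ z) (hn : 3 ≤ n) :
    ((F3 n z).card : ℝ) ≤ 352 * LL n / Real.log n * (1 + Real.log n) * (1 / z) +
      LL n * (1 + Real.log n) * (1 / (Nat.sqrt (Nat.sqrt n) : ℝ)) +
      88 * Real.sqrt (((n : ℝ) + 1) ^ 3) * Real.sqrt n / Real.log n := by
  classical
  have hn0 : (3 : ℝ) ≤ n := by exact_mod_cast hn
  have hlogn : 0 < Real.log n := Real.log_pos (by linarith)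
  have hL0 : (0 : ℝ) ≤ LL n := Nat.cast_nonneg _
  set k := Nat.sqrt (Nat.sqrt n) with hk
  have hk1 : 1 ≤ k := by
    rw [hk, Nat.le_sqrt', one_pow, Nat.le_sqrt', one_pow]
    omega
  have h1 : ((F3 n z).card : ℝ) ≤ ∑ m ∈ Icc 1 n, ∑ p ∈ PP n z m, ((TT n m p).card : ℝ) := by
    unfold F3
    have h2 : ((Icc 1 n).biUnion fun m =>
        (PP n z m).biUnion fun p => (TT n m p).image (fun q => p * m * q)).card ≤
        ∑ m ∈ Icc 1 n, ∑ p ∈ PP n z m, (TT n m p).card :=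
      card_biUnion_le.trans (sum_le_sum fun m _ => card_biUnion_le.trans
        (sum_le_sum fun p _ => card_image_le))
    exact_mod_cast h2
  refine h1.trans ?_
  have hPPz : ∀ m, PP n z m ⊆ Ioc z (Nat.sqrt ((n + 1) ^ 3)) := by
    intro m
    unfold PP
    exact filter_subset _ _
  have h2 : ∀ m ∈ Icc 1 n, ∑ p ∈ PP n z m, ((TT n m p).card : ℝ) ≤
      352 * LL n / Real.log n * (1 / z) * (1 / m) + LL n * (1 / k) * (1 / m) +
      44 * Real.sqrt (((n : ℝ) + 1) ^ 3) / Real.log n * (1 / Real.sqrt m) := by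
    intro m hm
    rw [mem_Icc] at hm
    have hm0 : (0 : ℝ) < m := by exact_mod_cast (by omega : 0 < m)
    have h3 : ∀ p ∈ PP n z m, ((TT n m p).card : ℝ) ≤
        352 * LL n / Real.log n * (1 / m) * (1 / (p : ℝ) ^ 2) +
        ((LL n : ℝ) * (1 / m) * (if k < p then 1 / (p : ℝ) ^ 2 else 0) + 1) := by
      intro p hp
      unfold PP at hp
      rw [mem_filter, mem_Ioc] at hp
      have h4 := TT_bound hp.2.1 (by omega : 0 < m) hm.2 hn
      have h5 : (if n < p ^ 4 then (LL n : ℝ) * (1 / (p : ℝ) ^ 2) * (1 / m) + 1 else 0) ≤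
          ((LL n : ℝ) * (1 / m) * (if k < p then 1 / (p : ℝ) ^ 2 else 0) + 1) := by
        by_cases hc : n < p ^ 4
        · rw [if_pos hc]
          have hkp : k < p := by
            by_contra hcon
            push Not at hcon
            have h6 : p ^ 4 ≤ k ^ 4 := Nat.pow_le_pow_left hcon 4
            have h7 : k ^ 2 ≤ Nat.sqrt n := Nat.sqrt_le' _
            have h8 : Nat.sqrt n ^ 2 ≤ n := Nat.sqrt_le' _
            have h9 : k ^ 4 = (k ^ 2) ^ 2 := by ring
            have h10 : (k ^ 2) ^ 2 ≤ Nat.sqrt n ^ 2 := Nat.pow_le_pow_left h7 2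
            omega
          rw [if_pos hkp]
          apply le_of_eq
          ring
        · rw [if_neg hc]
          positivity
      calc ((TT n m p).card : ℝ) ≤ _ := h4
        _ ≤ 352 * LL n / Real.log n * (1 / (p : ℝ) ^ 2) * (1 / m) +
          ((LL n : ℝ) * (1 / m) * (if k < p then 1 / (p : ℝ) ^ 2 else 0) + 1) := by linarith
        _ = _ := by ring
    refine (sum_le_sum h3).trans ?_
    rw [sum_add_distrib, sum_add_distrib, ← mul_sum, ← mul_sum, sum_const, nsmul_eq_mul, mul_one]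
    have s1 : ∑ p ∈ PP n z m, 1 / (p : ℝ) ^ 2 ≤ 1 / (z : ℝ) :=
      (sum_le_sum_of_subset_of_nonneg (hPPz m) fun _ _ _ => by positivity).trans
        (sum_inv_sq z _ hz)
    have s2 : ∑ p ∈ PP n z m, (if k < p then 1 / (p : ℝ) ^ 2 else 0) ≤ 1 / (k : ℝ) := by
      rw [← sum_filter]
      refine (sum_le_sum_of_subset_of_nonneg (t := Ioc k (Nat.sqrt ((n + 1) ^ 3))) ?_ fun _ _ _ => by positivity).trans
        (sum_inv_sq k _ hk1)
      intro p hp
      rw [mem_filter] at hp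
      have := hPPz m hp.1
      rw [mem_Ioc] at this ⊢
      exact ⟨hp.2, this.2⟩
    have s3 := PP_card (z := z) (by omega : 0 < m) hm.2 hn
    have t1 : 352 * LL n / Real.log n * (1 / m) * ∑ p ∈ PP n z m, 1 / (p : ℝ) ^ 2 ≤
        352 * LL n / Real.log n * (1 / m) * (1 / (z : ℝ)) :=
      mul_le_mul_of_nonneg_left s1 (by positivity)
    have t2 : (LL n : ℝ) * (1 / m) * ∑ p ∈ PP n z m, (if k < p then 1 / (p : ℝ) ^ 2 else 0) ≤
        (LL n : ℝ) * (1 / m) * (1 / (k : ℝ)) :=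
      mul_le_mul_of_nonneg_left s2 (by positivity)
    have e1 : 352 * LL n / Real.log n * (1 / z) * (1 / m) =
      352 * LL n / Real.log n * (1 / m) * (1 / (z : ℝ)) := by ring
    have e2 : (LL n : ℝ) * (1 / k) * (1 / m) = (LL n : ℝ) * (1 / m) * (1 / (k : ℝ)) := by ring
    rw [e1, e2]
    linarith
  refine (sum_le_sum h2).trans ?_
  rw [sum_add_distrib, sum_add_distrib, ← mul_sum, ← mul_sum, ← mul_sum]
  have g1 := harm n
  have g2 := harm_sqrt n
  have u1 : 352 * LL n / Real.log n * (1 / (z : ℝ)) * ∑ m ∈ Icc 1 n, 1 / (m : ℝ) ≤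
      352 * LL n / Real.log n * (1 / (z : ℝ)) * (1 + Real.log n) :=
    mul_le_mul_of_nonneg_left g1 (by positivity)
  have u2 : (LL n : ℝ) * (1 / (k : ℝ)) * ∑ m ∈ Icc 1 n, 1 / (m : ℝ) ≤
      (LL n : ℝ) * (1 / (k : ℝ)) * (1 + Real.log n) :=
    mul_le_mul_of_nonneg_left g1 (by positivity)
  have u3 : 44 * Real.sqrt (((n : ℝ) + 1) ^ 3) / Real.log n * ∑ m ∈ Icc 1 n, 1 / Real.sqrt m ≤
      44 * Real.sqrt (((n : ℝ) + 1) ^ 3) / Real.log n * (2 * Real.sqrt n) :=
    mul_le_mul_of_nonneg_left g2 (by positivity)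
  have e1 : 352 * LL n / Real.log n * (1 + Real.log n) * (1 / z) =
    352 * LL n / Real.log n * (1 / (z : ℝ)) * (1 + Real.log n) := by ring
  have e2 : (LL n : ℝ) * (1 + Real.log n) * (1 / (k : ℝ)) =
    (LL n : ℝ) * (1 / (k : ℝ)) * (1 + Real.log n) := by ring
  have e3 : 88 * Real.sqrt (((n : ℝ) + 1) ^ 3) * Real.sqrt n / Real.log n =
    44 * Real.sqrt (((n : ℝ) + 1) ^ 3) / Real.log n * (2 * Real.sqrt n) := by ring
  rw [e1, e2, e3]
  linarith

end Pool.Agent.X27.CY
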