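import Mathlib
import Pool.Agent.X27.CY.Crt

set_option autoImplicit false

/-!
# Integers of an interval without prime factor in a set (second moment)
-/

namespace Pool.Agent.X27.CY

open Finset

lemma mult_count {m : ℕ} (hm : 0 < m) (A N : ℕ) :
    (N : ℝ) / m - 1 ≤ (((Ico A (A + N)).filter (fun d => m ∣ d)).card : ℝ) ∧
      (((Ico A (A + N)).filter (fun d => m ∣ d)).card : ℝ) ≤ (N : ℝ) / m + 1 := by
  have hf : ∀ c, (m ∣ c % m) ↔ m ∣ c := fun c => Nat.dvd_mod_iff (dvd_refl m)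
  have h := card_interval_nat (fun d => m ∣ d) hm hf A N
  have h1 : ((range m).filter (fun d => m ∣ d)).card = 1 := by
    rw [card_eq_one]
    refine ⟨0, ?_⟩
    ext d
    rw [mem_filter, mem_range, mem_singleton]
    constructor
    · rintro ⟨h2, h3⟩
      exact Nat.eq_zero_of_dvd_of_lt h3 h2
    · rintro rfl
      exact ⟨hm, dvd_zero _⟩
  rw [h1, mul_one, mul_one] at h
  have h2 : ((N / m : ℕ) : ℝ) ≤ (((Ico A (A + N)).filter (fun d => m ∣ d)).card : ℝ) := by
    exact_mod_cast h.1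
  have h3 : (((Ico A (A + N)).filter (fun d => m ∣ d)).card : ℝ) ≤ ((N / m : ℕ) : ℝ) + 1 := by
    exact_mod_cast h.2
  have h4 : ((N / m : ℕ) : ℝ) ≤ (N : ℝ) / m := Nat.cast_div_le
  have h5 : (N : ℝ) / m < ((N / m : ℕ) : ℝ) + 1 := by
    have hm' : (0 : ℝ) < m := by exact_mod_cast hm
    rw [div_lt_iff₀ hm']
    have h6 : N < (N / m + 1) * m := by
      rw [mul_comm]
      exact Nat.lt_mul_div_succ N hm
    exact_mod_cast h6
  constructor <;> linarith

theorem turan (Q : Finset ℕ) (hQ : ∀ q ∈ Q, q.Prime) (A N : ℕ) (S : ℝ)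
    (hS : S = ∑ q ∈ Q, 1 / (q : ℝ)) (hS0 : 0 < S) :
    (((Ico A (A + N)).filter (fun d => ∀ q ∈ Q, ¬ q ∣ d)).card : ℝ) ≤
      N / S + 3 * (Q.card : ℝ) ^ 2 / S ^ 2 := by
  classical
  set J := Ico A (A + N) with hJ
  set ω : ℕ → ℝ := fun d => ∑ q ∈ Q, if q ∣ d then (1 : ℝ) else 0 with hω
  set π : ℝ := (Q.card : ℝ) with hπ
  have hN0 : (0 : ℝ) ≤ N := Nat.cast_nonneg _
  have hπ1 : 1 ≤ π := by
    have : Q.Nonempty := by
      by_contra hne
      rw [not_nonempty_iff_eq_empty] at hne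
      rw [hS, hne, sum_empty] at hS0
      exact lt_irrefl _ hS0
    rw [hπ]
    exact_mod_cast this.card_pos
  have hSπ : S ≤ π / 2 := by
    rw [hS]
    calc ∑ q ∈ Q, 1 / (q : ℝ) ≤ ∑ q ∈ Q, (1 / 2 : ℝ) := by
          apply sum_le_sum
          intro q hq
          apply one_div_le_one_div_of_le (by norm_num)
          exact_mod_cast (hQ q hq).two_le
      _ = π / 2 := by rw [sum_const, nsmul_eq_mul, hπ]; ring
  -- first moment
  have m1 : N * S - π ≤ ∑ d ∈ J, ω d := by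
    rw [hω]
    rw [sum_comm]
    have : ∀ q ∈ Q, (N : ℝ) * (1 / q) - 1 ≤ ∑ d ∈ J, (if q ∣ d then (1 : ℝ) else 0) := by
      intro q hq
      rw [← sum_filter, sum_const, nsmul_eq_mul, mul_one, mul_one_div]
      exact (mult_count (hQ q hq).pos A N).1
    refine le_trans (le_of_eq ?_) (sum_le_sum this)
    rw [sum_sub_distrib, ← mul_sum, ← hS, sum_const, nsmul_eq_mul, mul_one]
  -- second moment
  have m2 : ∑ d ∈ J, ω d ^ 2 ≤ N * S ^ 2 + π ^ 2 + N * S + π := by
    have e : ∀ d, ω d ^ 2 = ∑ q ∈ Q, ∑ q' ∈ Q, if (q ∣ d ∧ q' ∣ d) then (1 : ℝ) else 0 := by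
      intro d
      rw [sq, hω]
      simp only
      rw [sum_mul_sum]
      apply sum_congr rfl
      intro q _
      apply sum_congr rfl
      intro q' _
      by_cases h1 : q ∣ d <;> by_cases h2 : q' ∣ d <;> simp [h1, h2]
    simp_rw [e]
    rw [sum_comm]
    have hb : ∀ q ∈ Q, ∀ q' ∈ Q, ∑ d ∈ J, (if (q ∣ d ∧ q' ∣ d) then (1 : ℝ) else 0) ≤
        (N : ℝ) * (1 / q) * (1 / q') + 1 + (if q = q' then (N : ℝ) * (1 / q) + 1 else 0) := by
      intro q hq q' hq'
      rw [← sum_filter, sum_const, nsmul_eq_mul, mul_one]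
      have hq0 : (0 : ℝ) < q := by exact_mod_cast (hQ q hq).pos
      have hq0' : (0 : ℝ) < q' := by exact_mod_cast (hQ q' hq').pos
      by_cases h : q = q'
      · rw [if_pos h]
        have h1 := (mult_count (hQ q hq).pos A N).2
        have h2 : ((J.filter (fun d => q ∣ d ∧ q' ∣ d)).card : ℝ) ≤
            ((J.filter (fun d => q ∣ d)).card : ℝ) := by
          have h4 : J.filter (fun d => q ∣ d ∧ q' ∣ d) ⊆ J.filter (fun d => q ∣ d) := by
            intro d hd
            rw [mem_filter] at hd ⊢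
            exact ⟨hd.1, hd.2.1⟩
          exact_mod_cast card_le_card h4
        have h3 : 0 ≤ (N : ℝ) * (1 / q) * (1 / q') := by positivity
        rw [mul_one_div (N : ℝ) (q : ℝ)] at *
        linarith
      · rw [if_neg h, add_zero]
        have hco : Nat.Coprime q q' := (Nat.coprime_primes (hQ q hq) (hQ q' hq')).2 h
        have h1 := (mult_count (Nat.mul_pos (hQ q hq).pos (hQ q' hq').pos) A N).2
        have h2 : ((J.filter (fun d => q ∣ d ∧ q' ∣ d)).card : ℝ) ≤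
            ((J.filter (fun d => q * q' ∣ d)).card : ℝ) := by
          have h4 : J.filter (fun d => q ∣ d ∧ q' ∣ d) ⊆ J.filter (fun d => q * q' ∣ d) := by
            intro d hd
            rw [mem_filter] at hd ⊢
            exact ⟨hd.1, hco.mul_dvd_of_dvd_of_dvd hd.2.1 hd.2.2⟩
          exact_mod_cast card_le_card h4
        refine h2.trans (h1.trans (le_of_eq ?_))
        push_cast
        field_simp
    have hb2 : ∑ q ∈ Q, ∑ d ∈ J, ∑ q' ∈ Q, (if (q ∣ d ∧ q' ∣ d) then (1 : ℝ) else 0) ≤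
        ∑ q ∈ Q, ∑ q' ∈ Q, ((N : ℝ) * (1 / q) * (1 / q') + 1 +
          (if q = q' then (N : ℝ) * (1 / q) + 1 else 0)) := by
      apply sum_le_sum
      intro q hq
      rw [sum_comm]
      exact sum_le_sum (hb q hq)
    refine hb2.trans (le_of_eq ?_)
    have e1 : ∀ q ∈ Q, ∑ q' ∈ Q, ((N : ℝ) * (1 / q) * (1 / q') + 1 +
          (if q = q' then (N : ℝ) * (1 / q) + 1 else 0)) =
        (N : ℝ) * S * (1 / q) + π + ((N : ℝ) * (1 / q) + 1) := by
      intro q hq
      rw [sum_add_distrib, sum_add_distrib, ← mul_sum, ← hS, sum_const, nsmul_eq_mul, mul_one,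
        Finset.sum_ite_eq, if_pos hq]
      ring
    rw [sum_congr rfl e1, sum_add_distrib, sum_add_distrib, sum_add_distrib, ← mul_sum, ← mul_sum,
      ← hS, sum_const, sum_const, nsmul_eq_mul, nsmul_eq_mul]
    ring
  have m3 : ∑ d ∈ J, (ω d - S) ^ 2 ≤ N * S + 3 * π ^ 2 := by
    have e : ∑ d ∈ J, (ω d - S) ^ 2 = ∑ d ∈ J, ω d ^ 2 - 2 * S * ∑ d ∈ J, ω d + N * S ^ 2 := by
      have e1 : ∀ d ∈ J, (ω d - S) ^ 2 = ω d ^ 2 - 2 * S * ω d + S ^ 2 := fun d _ => by ring
      rw [sum_congr rfl e1, sum_add_distrib, sum_sub_distrib, ← mul_sum, sum_const, nsmul_eq_mul,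
        hJ, Nat.card_Ico]
      congr 2
      congr 1
      omega
    rw [e]
    have : 2 * S * (N * S - π) ≤ 2 * S * ∑ d ∈ J, ω d :=
      mul_le_mul_of_nonneg_left m1 (by linarith)
    nlinarith
  have m4 : (((Ico A (A + N)).filter (fun d => ∀ q ∈ Q, ¬ q ∣ d)).card : ℝ) * S ^ 2 ≤
      ∑ d ∈ J, (ω d - S) ^ 2 := by
    rw [← nsmul_eq_mul]
    refine le_trans ?_ (sum_le_sum_of_subset_of_nonneg (filter_subset
      (fun d => ∀ q ∈ Q, ¬ q ∣ d) J) fun _ _ _ => sq_nonneg _)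
    apply card_nsmul_le_sum
    intro d hd
    rw [mem_filter] at hd
    have h0 : ω d = 0 := by
      rw [hω]
      apply sum_eq_zero
      intro q hq
      rw [if_neg (hd.2 q hq)]
    rw [h0]
    apply le_of_eq
    ring
  have hS2 : 0 < S ^ 2 := by positivity
  have e : (N : ℝ) / S + 3 * π ^ 2 / S ^ 2 = (N * S + 3 * π ^ 2) / S ^ 2 := by
    field_simp
  rw [e, le_div_iff₀ hS2]
  exact m4.trans m3

end Pool.Agent.X27.CY
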