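import Mathlib
import Pool.Agent.X27.CY.Bad
import Pool.Agent.X27.CY.Turan

set_option autoImplicit false

/-!
# Upper bounds for the number of tuples of cyclic numbers between consecutive cubes
-/

namespace Pool.Agent.X27.CY

open Finset Filter Topology

/-- `log log √n` -/
noncomputable def ww (n : ℕ) : ℝ := Real.log (Real.log (Nat.sqrt n : ℝ))

lemma sqrt_tendsto : Tendsto Nat.sqrt atTop atTop := by
  rw [tendsto_atTop]
  intro b
  filter_upwards [eventually_ge_atTop (b ^ 2)] with n hn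
  rwa [Nat.le_sqrt']

lemma ww_tendsto : Tendsto ww atTop atTop :=
  Real.tendsto_log_atTop.comp (Real.tendsto_log_atTop.comp
    (tendsto_natCast_atTop_atTop.comp sqrt_tendsto))

open Classical in
/-- the cyclic multiples of `p` between `n^3` and `(n+1)^3` -/
noncomputable def EE (n p : ℕ) : Finset ℕ := (II n).filter (fun c => p ∣ c ∧ Cyc c)

lemma EE_bound : ∃ n0 : ℕ, ∀ n : ℕ, n0 ≤ n → 1 ≤ ww n ∧ ∀ p : ℕ, p.Prime → (p : ℝ) ≤ ww n →
    ((EE n p).card : ℝ) ≤ 50 * (n : ℝ) ^ 2 / ww n := by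
  classical
  obtain ⟨y0, hy⟩ := SS_lower
  -- `ww n` is small
  have hsmall : ∀ᶠ n : ℕ in atTop, (432 * (n : ℝ) + 24) * ww n + 36 * n ≤ 14 * (n : ℝ) ^ 2 := by
    have h1 : ∀ᶠ n : ℕ in atTop, ww n ≤ Real.log n := by
      filter_upwards [ww_tendsto.eventually_ge_atTop 1, eventually_ge_atTop 3] with n h1 h3
      have h4 : (1 : ℝ) ≤ Real.log (Nat.sqrt n : ℝ) := by
        by_contra hcon
        push Not at hcon
        have h7 : 0 ≤ Real.log (Nat.sqrt n : ℝ) := Real.log_natCast_nonneg _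
        have h5 : ww n ≤ 0 := by
          unfold ww
          exact Real.log_nonpos h7 hcon.le
        linarith
      have h5 : ww n ≤ Real.log (Nat.sqrt n : ℝ) - 1 := Real.log_le_sub_one_of_pos (by linarith)
      have hs : 0 < Nat.sqrt n := Nat.sqrt_pos.2 (by omega)
      have h6 : Real.log (Nat.sqrt n : ℝ) ≤ Real.log n :=
        Real.log_le_log (by exact_mod_cast hs) (by exact_mod_cast Nat.sqrt_le_self n)
      linarith
    have h2 := tendsto_natCast_atTop_atTop.eventually
      ((Real.isLittleO_log_id_atTop).def (show (0 : ℝ) < 1 / 100 by norm_num))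
    filter_upwards [h1, h2, eventually_ge_atTop 100] with n h1 h2 h3
    rw [id, Real.norm_eq_abs, Real.norm_eq_abs, abs_of_nonneg (Real.log_natCast_nonneg _),
      abs_of_nonneg (Nat.cast_nonneg n)] at h2
    have h3' : (100 : ℝ) ≤ n := by exact_mod_cast h3
    have h4 : ww n ≤ 1 / 100 * n := h1.trans h2
    have h5 : (432 * (n : ℝ) + 24) * ww n ≤ (432 * (n : ℝ) + 24) * (1 / 100 * n) :=
      mul_le_mul_of_nonneg_left h4 (by positivity)
    nlinarith
  obtain ⟨n0, h0⟩ := eventually_atTop.1 ((hsmall.and (ww_tendsto.eventually_ge_atTop 1)).and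
    (sqrt_tendsto.eventually_ge_atTop y0))
  refine ⟨max n0 1, fun n hn => ?_⟩
  obtain ⟨⟨hs, hw1⟩, hsq⟩ := h0 n ((le_max_left _ _).trans hn)
  have hn1 : 1 ≤ n := (le_max_right _ _).trans hn
  refine ⟨hw1, fun p hp hpw => ?_⟩
  have hw0 : 0 < ww n := by linarith
  have hp0 : (0 : ℝ) < p := by exact_mod_cast hp.pos
  have hS := hy (Nat.sqrt n) hsq p hp.two_le hpw
  change ww n / (12 * p) ≤ SS p (Nat.sqrt n) at hS
  set S := SS p (Nat.sqrt n) with hSdef
  have hS0 : 0 < S := lt_of_lt_of_le (by positivity) hS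
  -- comparison with the quotients
  have hc1 : (EE n p).card ≤ ((Ico ((n ^ 3 + 1) / p) ((n ^ 3 + 1) / p + (LL n / p + 2))).filter
      (fun d => ∀ q ∈ QQ p (Nat.sqrt n), ¬ q ∣ d)).card := by
    refine Finset.card_le_card_of_injOn (fun c => c / p) ?_ ?_
    · intro c hc
      rw [Finset.mem_coe] at hc
      unfold EE at hc
      rw [mem_filter] at hc
      obtain ⟨hcI, hpc, hcyc⟩ := hc
      unfold II at hcI
      rw [mem_Ico] at hcI
      rw [Finset.mem_coe, mem_filter, mem_Ico]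
      refine ⟨⟨Nat.div_le_div_right hcI.1, ?_⟩, ?_⟩
      · have h1 : c / p ≤ (n ^ 3 + 1 + LL n) / p := Nat.div_le_div_right hcI.2.le
        have h2 : (n ^ 3 + 1 + LL n) / p ≤ (n ^ 3 + 1) / p + LL n / p + 1 :=
          Nat.add_div_le_add_div _ _ _ |> fun _ => by
            have h3 := Nat.div_add_mod (n ^ 3 + 1) p
            have h4 := Nat.div_add_mod (LL n) p
            have h5 := Nat.mod_lt (n ^ 3 + 1) hp.pos
            have h6 := Nat.mod_lt (LL n) hp.pos
            have h7 : n ^ 3 + 1 + LL n < ((n ^ 3 + 1) / p + LL n / p + 2) * p := by nlinarith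
            have h8 := (Nat.div_lt_iff_lt_mul hp.pos).2 h7
            omega
        simp only
        omega
      · intro q hq hqd
        unfold QQ at hq
        rw [mem_filter, mem_Icc] at hq
        have hqc : q ∣ c := hqd.trans (Nat.div_dvd_of_dvd hpc)
        exact not_cyc_of_dvd hp hq.2.1 hpc hqc
          ((Nat.modEq_iff_dvd' hq.1.1).1 hq.2.2.symm) hcyc
    · intro c hc c' hc' he
      rw [Finset.mem_coe] at hc hc'
      unfold EE at hc hc'
      rw [mem_filter] at hc hc'
      simp only at he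
      rw [← Nat.div_mul_cancel hc.2.1, ← Nat.div_mul_cancel hc'.2.1, he]
  have hc2 := turan (QQ p (Nat.sqrt n)) (fun q hq => by
    unfold QQ at hq
    exact (mem_filter.1 hq).2.1) ((n ^ 3 + 1) / p) (LL n / p + 2) S rfl hS0
  have hc1' : ((EE n p).card : ℝ) ≤ _ := (Nat.cast_le.2 hc1).trans hc2
  refine hc1'.trans ?_
  have hπ : ((QQ p (Nat.sqrt n)).card : ℝ) ^ 2 ≤ n := by
    have h1 : (QQ p (Nat.sqrt n)).card ≤ Nat.sqrt n := by
      unfold QQ
      refine (card_filter_le _ _).trans ?_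
      rw [Nat.card_Icc]
      omega
    have h2 : (QQ p (Nat.sqrt n)).card ^ 2 ≤ n := (Nat.pow_le_pow_left h1 2).trans (Nat.sqrt_le' n)
    exact_mod_cast h2
  have hN : ((LL n / p + 2 : ℕ) : ℝ) ≤ LL n / p + 2 := by
    push_cast
    have : ((LL n / p : ℕ) : ℝ) ≤ LL n / p := Nat.cast_div_le
    linarith
  have hLL : ((LL n : ℕ) : ℝ) = 3 * (n : ℝ) ^ 2 + 3 * n := by
    unfold LL
    push_cast
    ring
  have b1 : ((LL n / p + 2 : ℕ) : ℝ) / S ≤ 12 * (LL n + 2 * p) / ww n := by
    have h1 : ((LL n / p + 2 : ℕ) : ℝ) / S ≤ ((LL n : ℝ) / p + 2) / (ww n / (12 * p)) :=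
      div_le_div₀ (by positivity) hN (by positivity) hS
    refine h1.trans (le_of_eq ?_)
    field_simp
  have b2 : 3 * ((QQ p (Nat.sqrt n)).card : ℝ) ^ 2 / S ^ 2 ≤ 432 * n := by
    have h1 : 3 * ((QQ p (Nat.sqrt n)).card : ℝ) ^ 2 / S ^ 2 ≤ 3 * n / (ww n / (12 * p)) ^ 2 := by
      apply div_le_div₀ (by positivity) (by linarith) (by positivity)
      exact pow_le_pow_left₀ (by positivity) hS 2
    refine h1.trans ?_
    have h2 : 3 * (n : ℝ) / (ww n / (12 * p)) ^ 2 = 432 * n * (p / ww n) ^ 2 := by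
      field_simp
      ring
    rw [h2]
    have h3 : (p : ℝ) / ww n ≤ 1 := by
      rw [div_le_one hw0]
      exact hpw
    have h4 : ((p : ℝ) / ww n) ^ 2 ≤ 1 := pow_le_one₀ (by positivity) h3
    have h5 : (0 : ℝ) ≤ 432 * n := by positivity
    nlinarith
  have b3 : 12 * (LL n + 2 * (p : ℝ)) / ww n + 432 * n ≤ 50 * (n : ℝ) ^ 2 / ww n := by
    rw [div_add' _ _ _ hw0.ne']
    apply div_le_div_of_nonneg_right _ hw0.le
    rw [hLL]
    have hn1' : (1 : ℝ) ≤ n := by exact_mod_cast hn1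
    nlinarith
  linarith

/-- the `c` for which all `c + h` are cyclic and between `n^3` and `(n+1)^3` -/
noncomputable def UU (H : Finset ℕ) (n : ℕ) : Finset ℕ := by
  classical
  exact (II n).filter (fun c => ∀ h ∈ H, c + h ∈ II n ∧ Cyc (c + h))

lemma prod_Pr_le (z : ℕ) : ∏ p ∈ Pr z, (p : ℝ) ≤ 4 ^ z := by
  have h := primorial_le_four_pow z
  have e : ∏ p ∈ Pr z, p ≤ primorial z := by
    unfold primorial Pr
    apply le_of_eq
    apply prod_congr _ fun _ _ => rfl
    ext p
    rw [mem_filter, mem_filter, mem_Icc, mem_range]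
    constructor
    · rintro ⟨h1, h2⟩
      exact ⟨by omega, h2⟩
    · rintro ⟨h1, h2⟩
      exact ⟨⟨h2.one_lt.le, by omega⟩, h2⟩
  have h2 : ((∏ p ∈ Pr z, p : ℕ) : ℝ) ≤ ((4 ^ z : ℕ) : ℝ) := by exact_mod_cast e.trans h
  push_cast at h2
  exact h2

theorem UU_bound : ∃ n0 : ℕ, ∀ n : ℕ, n0 ≤ n → ∀ H : Finset ℕ, ∀ z : ℕ, (z : ℝ) ≤ ww n →
    ((UU H n).card : ℝ) ≤ LL n * ∏ p ∈ Pr z, (1 - (rho H p : ℝ) / p) + 4 ^ z +
      H.card * (z * (50 * (n : ℝ) ^ 2 / ww n)) := by
  classical
  obtain ⟨n0, h0⟩ := EE_bound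
  refine ⟨n0, fun n hn H z hz => ?_⟩
  obtain ⟨hw, hE⟩ := h0 n hn
  have hsub : UU H n ⊆ (II n).filter (Free H (Pr z)) ∪
      H.biUnion (fun h => (Pr z).biUnion (fun p => (EE n p).image (fun c => c - h))) := by
    intro c hc
    unfold UU at hc
    rw [mem_filter] at hc
    by_cases hf : Free H (Pr z) c
    · exact mem_union_left _ (mem_filter.2 ⟨hc.1, hf⟩)
    · apply mem_union_right
      unfold Free at hf
      push Not at hf
      obtain ⟨p, hp, h, hh, hd⟩ := hf
      rw [mem_biUnion]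
      refine ⟨h, hh, ?_⟩
      rw [mem_biUnion]
      refine ⟨p, hp, ?_⟩
      rw [mem_image]
      refine ⟨c + h, ?_, by omega⟩
      unfold EE
      rw [mem_filter]
      exact ⟨(hc.2 h hh).1, hd, (hc.2 h hh).2⟩
  have h1 : ((UU H n).card : ℝ) ≤ (((II n).filter (Free H (Pr z))).card : ℝ) +
      ∑ h ∈ H, ∑ p ∈ Pr z, ((EE n p).card : ℝ) := by
    have h2 : (UU H n).card ≤ ((II n).filter (Free H (Pr z))).card +
        ∑ h ∈ H, ∑ p ∈ Pr z, (EE n p).card := by
      refine (card_le_card hsub).trans ((card_union_le _ _).trans ?_)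
      apply Nat.add_le_add_left
      exact card_biUnion_le.trans (sum_le_sum fun h _ => card_biUnion_le.trans
        (sum_le_sum fun p _ => card_image_le))
    exact_mod_cast h2
  have h2 := count_free H (Pr z) (fun p hp => Pr_prime hp) (n ^ 3 + 1) (LL n)
  have h3 := (abs_le.1 h2).2
  have h4 := prod_Pr_le z
  have h5 : ∑ h ∈ H, ∑ p ∈ Pr z, ((EE n p).card : ℝ) ≤ H.card * (z * (50 * (n : ℝ) ^ 2 / ww n)) := by
    have h6 : ∑ p ∈ Pr z, ((EE n p).card : ℝ) ≤ z * (50 * (n : ℝ) ^ 2 / ww n) := by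
      have h7 : ∀ p ∈ Pr z, ((EE n p).card : ℝ) ≤ 50 * (n : ℝ) ^ 2 / ww n := by
        intro p hp
        apply hE p (Pr_prime hp)
        unfold Pr at hp
        rw [mem_filter, mem_Icc] at hp
        have : (p : ℝ) ≤ z := by exact_mod_cast hp.1.2
        linarith
      refine (sum_le_sum h7).trans ?_
      rw [sum_const, nsmul_eq_mul]
      apply mul_le_mul_of_nonneg_right _ (by positivity)
      have : (Pr z).card ≤ z := by
        unfold Pr
        refine (card_filter_le _ _).trans ?_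
        rw [Nat.card_Icc]
        omega
      exact_mod_cast this
    rw [sum_const, nsmul_eq_mul]
    exact mul_le_mul_of_nonneg_left h6 (Nat.cast_nonneg _)
  have e : (II n).filter (Free H (Pr z)) = (Ico (n ^ 3 + 1) (n ^ 3 + 1 + LL n)).filter (Free H (Pr z)) := rfl
  rw [e] at h1
  linarith

/-- three shifts -/
lemma rho_three {a b p : ℕ} (hab : (a = 2 ∧ b = 4) ∨ (a = 2 ∧ b = 6) ∨ (a = 4 ∧ b = 6))
    (hp : p.Prime) (h5 : 5 ≤ p) : rho {0, a, b} p = 3 := by
  rw [rho_eq {0, a, b} hp.pos]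
  · rcases hab with ⟨rfl, rfl⟩ | ⟨rfl, rfl⟩ | ⟨rfl, rfl⟩ <;> decide
  · intro x hx y hy hxy
    have hx' : x = 0 ∨ x = 2 ∨ x = 4 ∨ x = 6 := by
      simp only [mem_insert, mem_singleton] at hx
      omega
    have hy' : y = 0 ∨ y = 2 ∨ y = 4 ∨ y = 6 := by
      simp only [mem_insert, mem_singleton] at hy
      omega
    rcases Nat.lt_or_ge p 7 with h7 | h7
    · have hp5 : p = 5 := by
        interval_cases p
        · rfl
        · exact absurd hp (by norm_num)
      subst hp5
      rcases hx' with rfl | rfl | rfl | rfl <;> rcases hy' with rfl | rfl | rfl | rfl <;>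
        revert hxy <;> decide
    · rw [Nat.mod_eq_of_lt (by omega), Nat.mod_eq_of_lt (by omega)] at hxy
      exact hxy

open Pool.Agent.H305R2 in
lemma prod_three {a b : ℕ} (hab : (a = 2 ∧ b = 4) ∨ (a = 2 ∧ b = 6) ∨ (a = 4 ∧ b = 6)) {z : ℕ}
    (hz : 3 ≤ z) : ∏ p ∈ Pr z, (1 - (rho {0, a, b} p : ℝ) / p) ≤ 27 * (VV z)⁻¹ ^ 3 := by
  have h1 : ∏ p ∈ Pr z, (1 - (rho {0, a, b} p : ℝ) / p) ≤
      ∏ p ∈ Pr z, ((if p = 2 then (8 : ℝ) else if p = 3 then 27 / 8 else 1) * (1 - (p : ℝ)⁻¹) ^ 3) := by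
    apply Finset.prod_le_prod
    · intro p hp
      have hp0 : (0 : ℝ) < p := by exact_mod_cast (Pr_prime hp).pos
      have : (rho {0, a, b} p : ℝ) ≤ p := by exact_mod_cast rho_le _ p
      rw [sub_nonneg, div_le_one hp0]
      exact this
    · intro p hp
      have hpp := Pr_prime hp
      have hp0 : (0 : ℝ) < p := by exact_mod_cast hpp.pos
      have h2 : 1 - (rho {0, a, b} p : ℝ) / p ≤ 1 := by
        have : 0 ≤ (rho {0, a, b} p : ℝ) / p := by positivity
        linarith
      by_cases e2 : p = 2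
      · subst e2
        refine h2.trans ?_
        norm_num
      · by_cases e3 : p = 3
        · subst e3
          refine h2.trans ?_
          norm_num
        · rw [if_neg e2, if_neg e3, one_mul]
          have h5 : 5 ≤ p := by
            by_contra hcon
            push Not at hcon
            have := hpp.two_le
            interval_cases p
            · exact e2 rfl
            · exact e3 rfl
            · exact absurd hpp (by norm_num)
          rw [rho_three hab hpp h5]
          have h5' : (5 : ℝ) ≤ p := by exact_mod_cast h5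
          have hu : (p : ℝ)⁻¹ ≤ 1 / 5 := by
            rw [inv_eq_one_div]
            exact one_div_le_one_div_of_le (by norm_num) h5'
          have hu0 : 0 < (p : ℝ)⁻¹ := by positivity
          set u := (p : ℝ)⁻¹ with hu'
          have e : ((3 : ℕ) : ℝ) / p = 3 * u := by rw [hu']; push_cast; ring
          rw [e]
          nlinarith [sq_nonneg u, mul_nonneg (sq_nonneg u) (sub_nonneg.2 hu)]
  refine h1.trans (le_of_eq ?_)
  rw [prod_mul_distrib, prod_pow]
  have h2 : ({2, 3} : Finset ℕ) ⊆ Pr z := by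
    intro p hp
    unfold Pr
    rw [mem_insert, mem_singleton] at hp
    rw [mem_filter, mem_Icc]
    rcases hp with rfl | rfl
    · exact ⟨⟨by norm_num, by omega⟩, by norm_num⟩
    · exact ⟨⟨by norm_num, by omega⟩, by norm_num⟩
  congr 1
  · rw [← prod_subset h2]
    · rw [prod_pair (by norm_num)]
      norm_num
    · intro p _ hp
      rw [mem_insert, mem_singleton] at hp
      rw [if_neg (by tauto), if_neg (by tauto)]
  · congr 1
    unfold VV
    rw [← prod_inv_distrib]
    apply prod_congr rfl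
    intro p _
    rw [inv_inv]

end Pool.Agent.X27.CY
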