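import Mathlib
import Pool.Agent.X27.CY.Upper
import Pool.Agent.X27.CY.Bad2

set_option autoImplicit false

/-!
# Lower bound for the number of pairs of consecutive cyclic numbers between consecutive cubes
-/

namespace Pool.Agent.X27.CY

open Finset

/-- `c`, `c + g` are consecutive cyclic numbers between `n^3` and `(n+1)^3` -/
def IsPair (g n c : ℕ) : Prop := n ^ 3 < c ∧ c + g < (n + 1) ^ 3 ∧ Cyc c ∧ Cyc (c + g) ∧
  ∀ d : ℕ, c < d → d < c + g → ¬ Cyc d

open Classical in
/-- the pairs of consecutive cyclic numbers between `n^3` and `(n+1)^3` with difference `g` -/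
noncomputable def TG (g n : ℕ) : Finset ℕ := (II n).filter (IsPair g n)

lemma TG_subset (g n : ℕ) : TG g n ⊆ UU {0, g} n := by
  classical
  intro c hc
  unfold TG at hc
  rw [mem_filter] at hc
  obtain ⟨hc, h1, h2, h3, h4, -⟩ := hc
  unfold UU
  rw [mem_filter]
  refine ⟨hc, fun h hh => ?_⟩
  rw [mem_insert, mem_singleton] at hh
  rcases hh with rfl | rfl
  · exact ⟨hc, h3⟩
  · rw [mem_II]
    exact ⟨⟨by omega, h2⟩, h4⟩

/-- `c`, `c + g` free of the primes up to `z` -/
def VS (g n z : ℕ) : Finset ℕ := (II n).filter (fun c => c + g ∈ II n ∧ Free {0, g} (Pr z) c)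

/-- triples -/
noncomputable def Mid (g n : ℕ) : Finset ℕ :=
  if g = 4 then UU {0, 2, 4} n else if g = 6 then UU {0, 2, 6} n ∪ UU {0, 4, 6} n else ∅

lemma VS_subset {g n z : ℕ} (hg : g = 2 ∨ g = 4 ∨ g = 6) (hn : 2 ≤ n) (hz : 2 ≤ z) :
    VS g n z ⊆ TG g n ∪ (BadSet n z ∪ ((BadSet n z).image (fun c => c - g) ∪ Mid g n)) := by
  classical
  intro c hc
  unfold VS at hc
  rw [mem_filter] at hc
  obtain ⟨hcI, hcg, hf⟩ := hc
  have hcI' := mem_II.1 hcI
  have hcg' := mem_II.1 hcg
  have hn3 : 8 ≤ n ^ 3 := by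
    have := Nat.pow_le_pow_left hn 3
    omega
  by_cases h1 : Cyc c
  · by_cases h2 : Cyc (c + g)
    · by_cases h3 : ∀ d : ℕ, c < d → d < c + g → ¬ Cyc d
      · apply mem_union_left
        unfold TG
        rw [mem_filter]
        exact ⟨hcI, hcI'.1, hcg'.2, h1, h2, h3⟩
      · push Not at h3
        obtain ⟨d, hd1, hd2, hd3⟩ := h3
        apply mem_union_right
        apply mem_union_right
        apply mem_union_right
        have hodd : ¬ 2 ∣ c := by
          have := hf 2 (by
            unfold Pr
            rw [mem_filter, mem_Icc]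
            exact ⟨⟨by norm_num, hz⟩, Nat.prime_two⟩) 0 (by simp)
          simpa using this
        have hdodd : ¬ 2 ∣ d := fun h => not_cyc_even h (by omega) hd3
        have key : ∀ a b : ℕ, d = c + a → b = g → c ∈ UU {0, a, b} n := by
          intro a b ha hb
          subst hb
          subst ha
          unfold UU
          rw [mem_filter]
          refine ⟨hcI, fun h hh => ?_⟩
          rw [mem_insert, mem_insert, mem_singleton] at hh
          rcases hh with rfl | rfl | rfl
          · exact ⟨hcI, h1⟩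
          · refine ⟨?_, hd3⟩
            rw [mem_II]
            omega
          · exact ⟨hcg, h2⟩
        rcases hg with rfl | rfl | rfl
        · exfalso
          omega
        · unfold Mid
          rw [if_pos rfl]
          exact key 2 4 (by omega) rfl
        · unfold Mid
          rw [if_neg (by norm_num), if_pos rfl, mem_union]
          have : d = c + 2 ∨ d = c + 4 := by omega
          rcases this with h | h
          · exact Or.inl (key 2 6 h rfl)
          · exact Or.inr (key 4 6 h rfl)
    · apply mem_union_right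
      apply mem_union_right
      apply mem_union_left
      rw [mem_image]
      refine ⟨c + g, ?_, by omega⟩
      unfold BadSet
      rw [mem_filter]
      refine ⟨hcg, ?_, h2⟩
      intro p hp h hh
      rw [mem_singleton] at hh
      subst hh
      rw [add_zero]
      exact hf p hp g (by simp)
  · apply mem_union_right
    apply mem_union_left
    unfold BadSet
    rw [mem_filter]
    refine ⟨hcI, ?_, h1⟩
    intro p hp h hh
    rw [mem_singleton] at hh
    subst hh
    exact hf p hp 0 (by simp)

lemma VS_card {g n z : ℕ} (hg : g = 2 ∨ g = 4 ∨ g = 6) :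
    (LL n : ℝ) * G g z - 4 ^ z - 6 ≤ (VS g n z).card := by
  classical
  have h1 := count_free {0, g} (Pr z) (fun p hp => Pr_prime hp) (n ^ 3 + 1) (LL n)
  have h2 := (abs_le.1 h1).1
  have h3 := prod_Pr_le z
  have hsub : (Ico (n ^ 3 + 1) (n ^ 3 + 1 + LL n)).filter (Free {0, g} (Pr z)) ⊆
      VS g n z ∪ Ico (n ^ 3 + 1 + LL n - g) (n ^ 3 + 1 + LL n) := by
    intro c hc
    rw [mem_filter] at hc
    by_cases h : c + g ∈ II n
    · apply mem_union_left
      unfold VS
      rw [mem_filter]
      exact ⟨hc.1, h, hc.2⟩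
    · apply mem_union_right
      rw [mem_Ico]
      have h4 := mem_Ico.1 hc.1
      have h5 : ¬ (n ^ 3 + 1 ≤ c + g ∧ c + g < n ^ 3 + 1 + LL n) := fun h' => h (by
        unfold II
        rw [mem_Ico]
        exact h')
      omega
  have h4 := (card_le_card hsub).trans (card_union_le _ _)
  rw [Nat.card_Ico] at h4
  have h5 : ((Ico (n ^ 3 + 1) (n ^ 3 + 1 + LL n)).filter (Free {0, g} (Pr z))).card ≤
      (VS g n z).card + 6 := by omega
  have h6 : (((Ico (n ^ 3 + 1) (n ^ 3 + 1 + LL n)).filter (Free {0, g} (Pr z))).card : ℝ) ≤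
      (VS g n z).card + 6 := by exact_mod_cast h5
  unfold G
  linarith

lemma Mid_card {g n : ℕ} {B : ℝ} (hB : 0 ≤ B)
    (h : ∀ a b : ℕ, ((a = 2 ∧ b = 4) ∨ (a = 2 ∧ b = 6) ∨ (a = 4 ∧ b = 6)) →
      ((UU {0, a, b} n).card : ℝ) ≤ B) : ((Mid g n).card : ℝ) ≤ 2 * B := by
  unfold Mid
  split_ifs
  · have := h 2 4 (by simp)
    linarith
  · have h1 := h 2 6 (by simp)
    have h2 := h 4 6 (by simp)
    have h3 : ((UU {0, 2, 6} n ∪ UU {0, 4, 6} n).card : ℝ) ≤
        (UU {0, 2, 6} n).card + (UU {0, 4, 6} n).card := by exact_mod_cast card_union_le _ _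
    linarith
  · simp
    exact hB

/-- the lower bound -/
lemma TG_lower {g n z : ℕ} (hg : g = 2 ∨ g = 4 ∨ g = 6) (hn : 2 ≤ n) (hz : 2 ≤ z) :
    (LL n : ℝ) * G g z - 4 ^ z - 6 - 2 * (BadSet n z).card - (Mid g n).card ≤ (TG g n).card := by
  classical
  have h1 := VS_card (n := n) (z := z) hg
  have h2 := card_le_card (VS_subset hg hn hz)
  have h3 : (VS g n z).card ≤ (TG g n).card + ((BadSet n z).card + ((BadSet n z).card +
      (Mid g n).card)) := by
    refine h2.trans ((card_union_le _ _).trans (Nat.add_le_add_left ((card_union_le _ _).trans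
      (Nat.add_le_add_left ((card_union_le _ _).trans (Nat.add_le_add_right card_image_le _)) _)) _))
  have h4 : ((VS g n z).card : ℝ) ≤ (TG g n).card + ((BadSet n z).card + ((BadSet n z).card +
      (Mid g n).card)) := by exact_mod_cast h3
  linarith

end Pool.Agent.X27.CY
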