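import Mathlib
import Pool.Agent.X27.CY.Lower

set_option autoImplicit false

/-!
# Limits used for the numbers of pairs of cyclic numbers between consecutive cubes
-/

namespace Pool.Agent.X27.CY

open Finset Filter Topology
open Pool.Agent.H305R2 (VV VV_tendsto)

/-- comparable quantities have asymptotically equal logarithms -/
lemma log_ratio {ι : Type*} {l : Filter ι} {a b : ι → ℝ} {c : ℝ} (hc : 0 < c)
    (hb : Tendsto b l atTop) (h : Tendsto (fun n => a n / b n) l (𝓝 c)) :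
    Tendsto (fun n => Real.log (a n) / Real.log (b n)) l (𝓝 1) := by
  have h1 : Tendsto (fun n => Real.log (a n / b n) / Real.log (b n) + 1) l (𝓝 (0 + 1)) := by
    apply Tendsto.add_const
    exact (h.log hc.ne').div_atTop (Real.tendsto_log_atTop.comp hb)
  rw [zero_add] at h1
  refine h1.congr' ?_
  filter_upwards [hb.eventually_gt_atTop 1, h.eventually_const_lt hc] with n h2 h3
  have h4 : 0 < b n := by linarith
  have h5 : a n ≠ 0 := by
    intro h0
    rw [h0, zero_div] at h3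
    exact lt_irrefl _ h3
  have h6 := Real.log_pos h2
  rw [Real.log_div h5 h4.ne']
  field_simp
  ring

/-- `⌊w^α⌋` -/
noncomputable def zf (α : ℝ) (n : ℕ) : ℕ := ⌊ww n ^ α⌋₊

lemma zf_tendsto {α : ℝ} (hα : 0 < α) : Tendsto (zf α) atTop atTop :=
  tendsto_nat_floor_atTop.comp ((tendsto_rpow_atTop hα).comp ww_tendsto)

lemma zf_div {α : ℝ} (hα : 0 < α) : Tendsto (fun n => (zf α n : ℝ) / ww n ^ α) atTop (𝓝 1) :=
  tendsto_nat_floor_div_atTop.comp ((tendsto_rpow_atTop hα).comp ww_tendsto)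

lemma log_zf {α : ℝ} (hα : 0 < α) :
    Tendsto (fun n => Real.log (zf α n) / Real.log (ww n)) atTop (𝓝 α) := by
  have h1 : Tendsto (fun n => Real.log (zf α n) / Real.log (ww n ^ α)) atTop (𝓝 1) :=
    log_ratio one_pos ((tendsto_rpow_atTop hα).comp ww_tendsto) (zf_div hα)
  have h2 := h1.const_mul α
  rw [mul_one] at h2
  refine h2.congr' ?_
  filter_upwards [ww_tendsto.eventually_gt_atTop 1] with n hn
  rw [Real.log_rpow (by linarith)]
  have := Real.log_pos hn
  field_simp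

lemma zf_le {α : ℝ} {n : ℕ} (hn : 1 ≤ ww n) : (zf α n : ℝ) ≤ ww n ^ α :=
  Nat.floor_le (Real.rpow_nonneg (by linarith) _)

lemma log_sq_div {β : ℝ} (hβ : 0 < β) :
    Tendsto (fun n => Real.log (ww n) ^ 2 / ww n ^ β) atTop (𝓝 0) := by
  have h := (isLittleO_log_rpow_rpow_atTop 2 hβ).tendsto_div_nhds_zero
  have h2 := h.comp ww_tendsto
  refine h2.congr fun n => ?_
  simp only [Function.comp_apply, Real.rpow_two]

/-- the scale -/
noncomputable def sc (n : ℕ) : ℝ := Real.log (ww n) ^ 2 / (n : ℝ) ^ 2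

lemma sc_nonneg (n : ℕ) : 0 ≤ sc n := by unfold sc; positivity

/-- `f` is negligible -/
def Ng (f : ℕ → ℝ) : Prop := Tendsto (fun n => f n * sc n) atTop (𝓝 0)

lemma Ng.add {f g : ℕ → ℝ} (hf : Ng f) (hg : Ng g) : Ng (fun n => f n + g n) := by
  have h := Tendsto.add hf hg
  rw [add_zero] at h
  exact h.congr fun n => by ring

lemma Ng.const_mul {f : ℕ → ℝ} (hf : Ng f) (c : ℝ) : Ng (fun n => c * f n) := by
  have h := Tendsto.const_mul c hf
  rw [mul_zero] at h
  exact h.congr fun n => by ring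

lemma Ng.mono {f g : ℕ → ℝ} (hg : Ng g) (h : ∀ᶠ n in atTop, 0 ≤ f n ∧ f n ≤ g n) : Ng f := by
  refine squeeze_zero' ?_ ?_ hg
  · filter_upwards [h] with n hn
    exact mul_nonneg hn.1 (sc_nonneg n)
  · filter_upwards [h] with n hn
    exact mul_le_mul_of_nonneg_right hn.2 (sc_nonneg n)

lemma exp_ww {n : ℕ} (h : 1 ≤ ww n) : Real.exp (ww n) = Real.log (Nat.sqrt n : ℝ) ∧
    1 ≤ Real.log (Nat.sqrt n : ℝ) := by
  have h4 : (1 : ℝ) ≤ Real.log (Nat.sqrt n : ℝ) := by
    by_contra hcon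
    push Not at hcon
    have h7 : 0 ≤ Real.log (Nat.sqrt n : ℝ) := Real.log_natCast_nonneg _
    have h5 : ww n ≤ 0 := by
      unfold ww
      exact Real.log_nonpos h7 hcon.le
    linarith
  refine ⟨?_, h4⟩
  unfold ww
  rw [Real.exp_log (by linarith)]

lemma exp_exp_ww {n : ℕ} (h : 1 ≤ ww n) : Real.exp (Real.exp (ww n)) = Nat.sqrt n := by
  obtain ⟨h1, h2⟩ := exp_ww h
  rw [h1, Real.exp_log]
  by_contra hcon
  push Not at hcon
  have := Real.log_nonpos (Nat.cast_nonneg _) (hcon.trans zero_le_one)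
  linarith

lemma exp_ww_le {n : ℕ} (h : 1 ≤ ww n) : Real.exp (ww n) ≤ Real.log n := by
  obtain ⟨h1, h2⟩ := exp_ww h
  rw [h1]
  have h3 : (0 : ℝ) < Nat.sqrt n := by
    rw [← exp_exp_ww h]
    exact Real.exp_pos _
  exact Real.log_le_log h3 (by exact_mod_cast Nat.sqrt_le_self n)

/-- `4^z` is negligible -/
lemma Ng_four {α : ℝ} (hα2 : α ≤ 2) : Ng (fun n => (4 : ℝ) ^ (zf α n)) := by
  have h1 : ∀ᶠ x : ℝ in atTop, 4 * x ^ 2 ≤ Real.exp x := by
    have h := Real.tendsto_pow_mul_exp_neg_atTop_nhds_zero 2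
    filter_upwards [h.eventually_lt_const (show (0 : ℝ) < 1 / 4 by norm_num)] with x hx
    rw [Real.exp_neg, ← div_eq_mul_inv, div_lt_iff₀ (Real.exp_pos x)] at hx
    linarith
  unfold Ng
  have h0 : Tendsto (fun n : ℕ => 1 / (n : ℝ)) atTop (𝓝 0) := tendsto_one_div_atTop_nhds_zero_nat
  refine squeeze_zero' ?_ ?_ h0
  · filter_upwards with n
    exact mul_nonneg (by positivity) (sc_nonneg n)
  · filter_upwards [ww_tendsto.eventually h1, ww_tendsto.eventually_ge_atTop 1,
      eventually_ge_atTop 1] with n h2 h3 h4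
    have hz : (zf α n : ℝ) ≤ ww n ^ 2 := by
      refine (zf_le h3).trans ?_
      rw [← Real.rpow_two]
      exact Real.rpow_le_rpow_of_exponent_le h3 hα2
    have e1 : (4 : ℝ) ^ (zf α n) ≤ Real.exp (2 * ww n ^ 2) := by
      have e2 : (4 : ℝ) ≤ Real.exp 2 := by
        have := Real.add_one_le_exp (1 : ℝ)
        have h5 : Real.exp 2 = Real.exp 1 * Real.exp 1 := by rw [← Real.exp_add]; norm_num
        nlinarith
      calc (4 : ℝ) ^ (zf α n) ≤ Real.exp 2 ^ (zf α n) := pow_le_pow_left₀ (by norm_num) e2 _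
        _ = Real.exp (2 * zf α n) := by rw [← Real.exp_nat_mul]; ring_nf
        _ ≤ Real.exp (2 * ww n ^ 2) := Real.exp_le_exp.2 (by linarith)
    have e3 : Real.log (ww n) ^ 2 ≤ Real.exp (2 * ww n) := by
      have h5 : Real.log (ww n) ≤ ww n := (Real.log_le_sub_one_of_pos (by linarith)).trans (by linarith)
      have h6 : ww n ≤ Real.exp (ww n) := (by linarith [Real.add_one_le_exp (ww n)])
      have h7 : 0 ≤ Real.log (ww n) := Real.log_nonneg h3
      have h8 : Real.exp (2 * ww n) = Real.exp (ww n) ^ 2 := by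
        rw [← Real.exp_nat_mul]; norm_num
      rw [h8]
      exact pow_le_pow_left₀ h7 (h5.trans h6) 2
    have e4 : (4 : ℝ) ^ (zf α n) * Real.log (ww n) ^ 2 ≤ n := by
      calc (4 : ℝ) ^ (zf α n) * Real.log (ww n) ^ 2
          ≤ Real.exp (2 * ww n ^ 2) * Real.exp (2 * ww n) :=
            mul_le_mul e1 e3 (by positivity) (Real.exp_pos _).le
        _ = Real.exp (2 * ww n ^ 2 + 2 * ww n) := (Real.exp_add _ _).symm
        _ ≤ Real.exp (Real.exp (ww n)) := Real.exp_le_exp.2 (by nlinarith)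
        _ = Nat.sqrt n := exp_exp_ww h3
        _ ≤ n := by exact_mod_cast Nat.sqrt_le_self n
    have hn0 : (0 : ℝ) < n := by exact_mod_cast h4
    unfold sc
    rw [← mul_div_assoc, div_le_div_iff₀ (by positivity) hn0]
    nlinarith

lemma Ng_log : Ng (fun n => (n : ℝ) ^ 2 / Real.log n) := by
  have h0 := log_sq_div (show (0 : ℝ) < 1 by norm_num)
  refine squeeze_zero' ?_ ?_ h0
  · filter_upwards with n
    exact mul_nonneg (div_nonneg (by positivity) (Real.log_natCast_nonneg _)) (sc_nonneg n)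
  · filter_upwards [ww_tendsto.eventually_ge_atTop 1, eventually_ge_atTop 1] with n h3 h4
    have hn0 : (0 : ℝ) < n := by exact_mod_cast h4
    have h5 := exp_ww_le h3
    have h6 : ww n ≤ Real.exp (ww n) := (by linarith [Real.add_one_le_exp (ww n)])
    rw [Real.rpow_one]
    have h7 : (n : ℝ) ^ 2 / Real.log n * sc n = Real.log (ww n) ^ 2 / Real.log n := by
      unfold sc
      field_simp
    rw [h7]
    exact div_le_div_of_nonneg_left (by positivity) (by linarith) (h6.trans h5)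

lemma log_le_sqrt : ∀ᶠ n : ℕ in atTop, Real.log n ≤ Real.sqrt n := by
  have h := (isLittleO_log_rpow_atTop (show (0 : ℝ) < 1 / 2 by norm_num)).def
    (show (0 : ℝ) < 1 by norm_num)
  filter_upwards [tendsto_natCast_atTop_atTop.eventually h] with n hn
  rw [one_mul, Real.norm_eq_abs, Real.norm_eq_abs, ← Real.sqrt_eq_rpow,
    abs_of_nonneg (Real.sqrt_nonneg _), abs_of_nonneg (Real.log_natCast_nonneg _)] at hn
  exact hn

lemma Ng_sqrt : Ng (fun n => (n : ℝ) * Real.sqrt n) := by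
  refine Ng_log.mono ?_
  filter_upwards [log_le_sqrt, eventually_ge_atTop 2] with n h1 h2
  have h2' : (2 : ℝ) ≤ n := by exact_mod_cast h2
  refine ⟨by positivity, ?_⟩
  have h3 : 0 < Real.log n := Real.log_pos (by linarith)
  rw [le_div_iff₀ h3]
  have h4 : Real.sqrt n * Real.sqrt n = n := Real.mul_self_sqrt (by linarith)
  calc (n : ℝ) * Real.sqrt n * Real.log n ≤ (n : ℝ) * Real.sqrt n * Real.sqrt n := by gcongr
    _ = (n : ℝ) ^ 2 := by rw [mul_assoc, h4]; ring

lemma Ng_const (c : ℝ) (hc : 0 ≤ c) : Ng (fun _ => c) := by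
  refine Ng_sqrt.mono ?_
  filter_upwards [tendsto_natCast_atTop_atTop.eventually_ge_atTop c, eventually_ge_atTop 1]
    with n h1 h2
  refine ⟨hc, ?_⟩
  have h2' : (1 : ℝ) ≤ n := by exact_mod_cast h2
  have h3 : 1 ≤ Real.sqrt n := by rwa [Real.one_le_sqrt]
  nlinarith

lemma Ng_m : Ng (fun n => (n : ℝ) ^ 2 * (1 + Real.log n) * (1 / (Nat.sqrt (Nat.sqrt n) : ℝ))) := by
  refine Ng_log.mono ?_
  have hm : Tendsto (fun n : ℕ => Nat.sqrt (Nat.sqrt n)) atTop atTop := sqrt_tendsto.comp sqrt_tendsto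
  have h1 : ∀ᶠ m : ℕ in atTop, 30 * Real.log m ^ 2 ≤ m := by
    have h := (Real.isLittleO_pow_log_id_atTop (n := 2)).def (show (0 : ℝ) < 1 / 30 by norm_num)
    filter_upwards [tendsto_natCast_atTop_atTop.eventually h] with m hm
    rw [Real.norm_eq_abs, Real.norm_eq_abs, id, abs_of_nonneg (show (0 : ℝ) ≤ Real.log m ^ 2 by positivity),
      abs_of_nonneg (Nat.cast_nonneg m)] at hm
    linarith
  filter_upwards [hm.eventually h1, hm.eventually_ge_atTop 16, eventually_ge_atTop 3]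
    with n h2 h3 h4
  set m := Nat.sqrt (Nat.sqrt n) with hm
  have hn3 : (3 : ℝ) ≤ n := by exact_mod_cast h4
  have hm16 : (16 : ℝ) ≤ m := by exact_mod_cast h3
  have hlogn : 0 < Real.log n := Real.log_pos (by linarith)
  refine ⟨by positivity, ?_⟩
  have hlt : n < (m + 1) ^ 4 := by
    have k1 : Nat.sqrt n < (m + 1) ^ 2 := by
      rw [hm, sq]
      exact Nat.lt_succ_sqrt _
    have k2 : n < (Nat.sqrt n + 1) ^ 2 := by
      rw [sq]
      exact Nat.lt_succ_sqrt _
    have k3 : Nat.sqrt n + 1 ≤ (m + 1) ^ 2 := k1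
    calc n < (Nat.sqrt n + 1) ^ 2 := k2
      _ ≤ ((m + 1) ^ 2) ^ 2 := Nat.pow_le_pow_left k3 2
      _ = (m + 1) ^ 4 := by ring
  have hlog : Real.log n ≤ 5 * Real.log m := by
    have k1 : (n : ℝ) ≤ (m : ℝ) ^ 5 := by
      have k2 : (m + 1) ^ 4 ≤ m ^ 5 := by
        calc (m + 1) ^ 4 ≤ (2 * m) ^ 4 := Nat.pow_le_pow_left (by omega) 4
          _ = 16 * m ^ 4 := by ring
          _ ≤ m * m ^ 4 := Nat.mul_le_mul_right _ h3
          _ = m ^ 5 := by ring
      exact_mod_cast hlt.le.trans k2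
    have k3 := Real.log_le_log (by linarith) k1
    rw [Real.log_pow] at k3
    exact_mod_cast k3
  have hlogm : 1 ≤ Real.log m := by
    rw [Real.le_log_iff_exp_le (by linarith)]
    have := Real.exp_one_lt_d9
    linarith
  rw [mul_one_div, div_le_div_iff₀ (by linarith) hlogn]
  have k5 : (1 + Real.log n) * Real.log n ≤ m := by
    have : (1 + Real.log n) * Real.log n ≤ (6 * Real.log m) * (5 * Real.log m) :=
      mul_le_mul (by linarith) hlog hlogn.le (by linarith)
    nlinarith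
  calc (n : ℝ) ^ 2 * (1 + Real.log n) * Real.log n = (n : ℝ) ^ 2 * ((1 + Real.log n) * Real.log n) := by
        ring
    _ ≤ (n : ℝ) ^ 2 * m := by gcongr

lemma Ng_z2 {α : ℝ} (hα : 1 < α) : Ng (fun n => (n : ℝ) ^ 2 * (ww n * (1 / (zf α n : ℝ)))) := by
  have h1 := (log_sq_div (show 0 < α - 1 by linarith)).mul
    ((zf_div (show 0 < α by linarith)).inv₀ one_ne_zero)
  rw [zero_mul] at h1
  refine h1.congr' ?_
  filter_upwards [ww_tendsto.eventually_ge_atTop 1, eventually_ge_atTop 1,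
    (zf_tendsto (show 0 < α by linarith)).eventually_ge_atTop 1] with n h2 h3 h4
  have hn0 : (0 : ℝ) < n := by exact_mod_cast h3
  have hz0 : (0 : ℝ) < zf α n := by exact_mod_cast h4
  have hw : 0 < ww n := by linarith
  rw [Real.rpow_sub hw, Real.rpow_one]
  have hwα : 0 < ww n ^ α := Real.rpow_pos_of_pos hw _
  unfold sc
  field_simp

lemma ww_le_zf {α : ℝ} (hα : 1 < α) : ∀ᶠ n in atTop, ww n ≤ zf α n := by
  have h1 : Tendsto (fun n => ww n ^ (α - 1)) atTop atTop :=
    (tendsto_rpow_atTop (by linarith)).comp ww_tendsto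
  filter_upwards [h1.eventually_ge_atTop 2, ww_tendsto.eventually_ge_atTop 1] with n h2 h3
  have h4 : ww n ^ α = ww n ^ (α - 1) * ww n := by
    rw [← Real.rpow_add_one (by linarith)]
    congr 1
    ring
  have h5 : ww n ^ α < zf α n + 1 := Nat.lt_floor_add_one _
  nlinarith

lemma Ng_z2' {α : ℝ} (hα : 1 < α) : Ng (fun n => (n : ℝ) ^ 2 * (1 / Real.sqrt (zf α n))) := by
  have h0 := log_sq_div (show (0 : ℝ) < 1 / 2 by norm_num)
  refine squeeze_zero' ?_ ?_ h0
  · filter_upwards with n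
    exact mul_nonneg (by positivity) (sc_nonneg n)
  · filter_upwards [ww_tendsto.eventually_ge_atTop 1, eventually_ge_atTop 1, ww_le_zf hα]
      with n h2 h3 h4
    have hn0 : (0 : ℝ) < n := by exact_mod_cast h3
    have h5 : 0 < Real.sqrt (ww n) := Real.sqrt_pos.2 (by linarith)
    have h6 : Real.sqrt (ww n) ≤ Real.sqrt (zf α n) := Real.sqrt_le_sqrt h4
    have h7 : (n : ℝ) ^ 2 * (1 / Real.sqrt (zf α n)) * sc n =
        Real.log (ww n) ^ 2 / Real.sqrt (zf α n) := by
      unfold sc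
      have : Real.sqrt (zf α n) ≠ 0 := (h5.trans_le h6).ne'
      field_simp
    rw [h7, ← Real.sqrt_eq_rpow]
    exact div_le_div_of_nonneg_left (by positivity) h5 h6

lemma Ng_z1 {α : ℝ} (hα1 : α < 1) : Ng (fun n => (zf α n : ℝ) * ((n : ℝ) ^ 2 / ww n)) := by
  have h0 := log_sq_div (show (0 : ℝ) < 1 - α by linarith)
  refine squeeze_zero' ?_ ?_ h0
  · filter_upwards [ww_tendsto.eventually_ge_atTop 1] with n hn
    exact mul_nonneg (by positivity) (sc_nonneg n)
  · filter_upwards [ww_tendsto.eventually_ge_atTop 1, eventually_ge_atTop 1] with n h2 h3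
    have hn0 : (0 : ℝ) < n := by exact_mod_cast h3
    have hw : 0 < ww n := by linarith
    have h4 := zf_le (α := α) h2
    have e : (zf α n : ℝ) * ((n : ℝ) ^ 2 / ww n) * sc n =
        zf α n * (Real.log (ww n) ^ 2 / ww n) := by
      unfold sc
      field_simp
    rw [e, Real.rpow_sub hw, Real.rpow_one]
    have hwα : 0 < ww n ^ α := Real.rpow_pos_of_pos hw _
    have e2 : Real.log (ww n) ^ 2 / (ww n / ww n ^ α) = ww n ^ α * (Real.log (ww n) ^ 2 / ww n) := by
      field_simp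
    rw [e2]
    exact mul_le_mul_of_nonneg_right h4 (by positivity)

lemma Ng_VV {α : ℝ} (hα : 0 < α) : Ng (fun n => (n : ℝ) ^ 2 * (VV (zf α n))⁻¹ ^ 3) := by
  have h1 := ((VV_tendsto.comp (zf_tendsto hα)).inv₀ (Real.exp_pos _).ne').pow 3
  have h2 := ((log_zf hα).inv₀ hα.ne').pow 2
  have h3 : Tendsto (fun n => (Real.log (zf α n))⁻¹) atTop (𝓝 0) :=
    tendsto_inv_atTop_zero.comp (Real.tendsto_log_atTop.comp
      (tendsto_natCast_atTop_atTop.comp (zf_tendsto hα)))
  have h4 := (h1.mul h2).mul h3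
  rw [mul_zero] at h4
  refine h4.congr' ?_
  filter_upwards [ww_tendsto.eventually_gt_atTop 1, eventually_ge_atTop 1,
    (zf_tendsto hα).eventually_ge_atTop 2] with n h5 h6 h7
  have hn0 : (0 : ℝ) < n := by exact_mod_cast h6
  have hlw := Real.log_pos h5
  have hz : (2 : ℝ) ≤ zf α n := by exact_mod_cast h7
  have hlz : 0 < Real.log (zf α n) := Real.log_pos (by linarith)
  simp only [Function.comp_apply]
  unfold sc
  rw [inv_div, inv_div]
  field_simp

lemma LL_div : Tendsto (fun n : ℕ => (LL n : ℝ) / (n : ℝ) ^ 2) atTop (𝓝 3) := by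
  have h1 : Tendsto (fun n : ℕ => 3 + 3 * (1 / (n : ℝ))) atTop (𝓝 (3 + 3 * 0)) :=
    (tendsto_one_div_atTop_nhds_zero_nat.const_mul 3).const_add 3
  rw [mul_zero, add_zero] at h1
  refine h1.congr' ?_
  filter_upwards [eventually_ge_atTop 1] with n hn
  have hn0 : (0 : ℝ) < n := by exact_mod_cast hn
  unfold LL
  push_cast
  field_simp

/-- the constant -/
noncomputable def Kg (g : ℕ) : ℝ := eg g * twinC * Real.exp (-(2 * Real.eulerMascheroniConstant))

lemma Kg_pos (g : ℕ) : 0 < Kg g := by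
  unfold Kg eg
  have := twinC_pos
  split_ifs <;> positivity

lemma main_tendsto {g : ℕ} (hg : g = 2 ∨ g = 4 ∨ g = 6) {α : ℝ} (hα : 0 < α) :
    Tendsto (fun n => LL n * G g (zf α n) * sc n) atTop (𝓝 (3 * Kg g / α ^ 2)) := by
  have h1 := LL_div.mul ((G_tendsto hg).comp (zf_tendsto hα))
  have h2 := h1.mul (((log_zf hα).inv₀ hα.ne').pow 2)
  have e : 3 * Kg g / α ^ 2 = 3 * (eg g * twinC * Real.exp (-(2 * Real.eulerMascheroniConstant))) *
      α⁻¹ ^ 2 := by
    unfold Kg
    rw [inv_pow, div_eq_mul_inv]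
  rw [e]
  refine h2.congr' ?_
  filter_upwards [ww_tendsto.eventually_gt_atTop 1, eventually_ge_atTop 1,
    (zf_tendsto hα).eventually_ge_atTop 2] with n h5 h6 h7
  have hn0 : (0 : ℝ) < n := by exact_mod_cast h6
  have hlw := Real.log_pos h5
  have hz : (2 : ℝ) ≤ zf α n := by exact_mod_cast h7
  have hlz : 0 < Real.log (zf α n) := Real.log_pos (by linarith)
  simp only [Function.comp_apply]
  unfold sc
  rw [inv_div]
  field_simp

end Pool.Agent.X27.CY
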