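import Mathlib
import Pool.Agent.X27.CY.Asym

set_option autoImplicit false

/-!
# The asymptotic number of pairs of cyclic numbers between consecutive cubes
-/

namespace Pool.Agent.X27.CY

open Finset Filter Topology
open Pool.Agent.H305R2 (VV VV_tendsto)

lemma LL_le {n : ℕ} (hn : 1 ≤ n) : (LL n : ℝ) ≤ 6 * (n : ℝ) ^ 2 := by
  unfold LL
  push_cast
  have : (1 : ℝ) ≤ n := by exact_mod_cast hn
  nlinarith

lemma loglog_LL : ∀ᶠ n : ℕ in atTop, 1 ≤ Real.log (Real.log (LL n)) ∧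
    Real.log (Real.log (LL n)) ≤ 2 * ww n := by
  filter_upwards [ww_tendsto.eventually_ge_atTop 12, eventually_ge_atTop 5,
    sqrt_tendsto.eventually_ge_atTop 4] with n h1 h2 h3
  obtain ⟨k1, k2⟩ := exp_ww (n := n) (by linarith)
  set s := Nat.sqrt n with hs
  have hs4 : (4 : ℝ) ≤ s := by exact_mod_cast h3
  have hn5 : (5 : ℝ) ≤ n := by exact_mod_cast h2
  have hLn : n ≤ LL n := by unfold LL; nlinarith
  have hLn' : (n : ℝ) ≤ LL n := by exact_mod_cast hLn
  have hsn : (s : ℝ) ≤ n := by exact_mod_cast Nat.sqrt_le_self n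
  have hLs : (LL n : ℝ) ≤ (s : ℝ) ^ 12 := by
    have h4 : LL n ≤ n ^ 3 := by unfold LL; nlinarith [Nat.mul_le_mul h2 h2]
    have h5 : n ≤ s ^ 4 := by
      have h6 : n < (s + 1) ^ 2 := by
        rw [sq]
        exact Nat.lt_succ_sqrt _
      have h7 : (s + 1) ^ 2 ≤ s ^ 4 := by
        calc (s + 1) ^ 2 ≤ (2 * s) ^ 2 := Nat.pow_le_pow_left (by omega) 2
          _ = 4 * s ^ 2 := by ring
          _ ≤ (s * s) * s ^ 2 := Nat.mul_le_mul_right _ (by nlinarith)
          _ = s ^ 4 := by ring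
      omega
    have h8 : LL n ≤ s ^ 12 := h4.trans (by
      calc n ^ 3 ≤ (s ^ 4) ^ 3 := Nat.pow_le_pow_left h5 3
        _ = s ^ 12 := by ring)
    exact_mod_cast h8
  have hl1 : Real.log (LL n) ≤ 12 * Real.log s := by
    have := Real.log_le_log (by linarith) hLs
    rw [Real.log_pow] at this
    exact_mod_cast this
  have hl2 : Real.log s ≤ Real.log (LL n) := Real.log_le_log (by linarith) (hsn.trans hLn')
  have hw : Real.log (Real.log s) = ww n := rfl
  constructor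
  · have h9 := Real.log_le_log (by linarith) hl2
    rw [hw] at h9
    linarith
  · have h9 := Real.log_le_log (by linarith) hl1
    rw [Real.log_mul (by norm_num) (by linarith), hw] at h9
    have h10 : Real.log 12 ≤ 12 := (Real.log_le_sub_one_of_pos (by norm_num)).trans (by norm_num)
    linarith

lemma sqrt_cube {n : ℕ} (hn : 1 ≤ n) : Real.sqrt (((n : ℝ) + 1) ^ 3) ≤ 3 * (n * Real.sqrt n) := by
  have hn1 : (1 : ℝ) ≤ n := by exact_mod_cast hn
  rw [Real.sqrt_le_iff]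
  refine ⟨by positivity, ?_⟩
  have h4 : Real.sqrt n ^ 2 = n := Real.sq_sqrt (by linarith)
  calc ((n : ℝ) + 1) ^ 3 ≤ (2 * n) ^ 3 := pow_le_pow_left₀ (by linarith) (by linarith) 3
    _ = 8 * ((n : ℝ) ^ 2 * n) := by ring
    _ ≤ 9 * ((n : ℝ) ^ 2 * n) := by
        apply mul_le_mul_of_nonneg_right (by norm_num) (by positivity)
    _ = (3 * (n * Real.sqrt n)) ^ 2 := by
        rw [mul_pow, mul_pow, h4]
        ring

/-- the non-cyclic integers free of the primes up to `z` are negligible -/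
lemma Ng_bad {α : ℝ} (hα : 1 < α) : Ng (fun n => ((BadSet n (zf α n)).card : ℝ)) := by
  classical
  obtain ⟨C, hC, hF2⟩ := card_F2
  have hN := ((((Ng_z2 hα).const_mul (4230 + 24 * C)).add (Ng_sqrt.const_mul 3)).add
    ((Ng_z2' hα).const_mul 48)).add ((Ng_m.const_mul 6).add (Ng_log.const_mul 264))
  refine hN.mono ?_
  filter_upwards [ww_tendsto.eventually_ge_atTop 1, eventually_ge_atTop 3, loglog_LL,
    (zf_tendsto (show 0 < α by linarith)).eventually_ge_atTop 1] with n h1 h2 h3 h4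
  refine ⟨Nat.cast_nonneg _, ?_⟩
  set z := zf α n with hz
  have hn3 : (3 : ℝ) ≤ n := by exact_mod_cast h2
  have hz0 : (0 : ℝ) < z := by exact_mod_cast h4
  have hlogn : 1 ≤ Real.log n := by
    rw [Real.le_log_iff_exp_le (by linarith)]
    have := Real.exp_one_lt_d9
    linarith
  have hL3 : 3 ≤ LL n := by unfold LL; nlinarith
  have hL := LL_le (n := n) (by omega)
  have hL0 : (0 : ℝ) ≤ LL n := Nat.cast_nonneg _
  have b1 := card_F1 n z h4
  have b2 := hF2 n z h4 hL3 h3.1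
  have b3 := card_F3 (n := n) (z := z) h4 h2
  have b0 : ((BadSet n z).card : ℝ) ≤ (F1 n z).card + ((F2 n z).card + (F3 n z).card) := by
    have h5 := card_le_card (bad_subset (n := n) (z := z) (by omega))
    have h6 := h5.trans ((card_union_le _ _).trans (Nat.add_le_add_left (card_union_le _ _) _))
    exact_mod_cast h6
  have hsq := sqrt_cube (n := n) (by omega)
  have hsq0 : 0 ≤ Real.sqrt n := Real.sqrt_nonneg _
  have c1 : ((F1 n z).card : ℝ) ≤ 6 * ((n : ℝ) ^ 2 * (ww n * (1 / (z : ℝ)))) + 3 * (n * Real.sqrt n) := by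
    have h5 : ((Nat.sqrt ((n + 1) ^ 3) : ℕ) : ℝ) ≤ Real.sqrt (((n : ℝ) + 1) ^ 3) := by
      have := Real.nat_sqrt_le_real_sqrt (a := (n + 1) ^ 3)
      push_cast at this
      exact this
    have h6 : (LL n : ℝ) * (1 / z) ≤ 6 * ((n : ℝ) ^ 2 * (ww n * (1 / (z : ℝ)))) := by
      have h7 : (1 : ℝ) / z ≤ ww n * (1 / z) := le_mul_of_one_le_left (by positivity) h1
      calc (LL n : ℝ) * (1 / z) ≤ (6 * (n : ℝ) ^ 2) * (ww n * (1 / z)) :=
            mul_le_mul hL h7 (by positivity) (by positivity)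
        _ = _ := by ring
    rw [mul_one_div] at h6
    linarith
  have c2 : ((F2 n z).card : ℝ) ≤ 24 * C * ((n : ℝ) ^ 2 * (ww n * (1 / (z : ℝ)))) +
      48 * ((n : ℝ) ^ 2 * (1 / Real.sqrt z)) := by
    refine b2.trans ?_
    have h5 : C * Real.log (Real.log (LL n)) * (1 / (z : ℝ)) ≤ C * (2 * ww n) * (1 / (z : ℝ)) := by
      apply mul_le_mul_of_nonneg_right _ (by positivity)
      exact mul_le_mul_of_nonneg_left h3.2 (by linarith)
    calc 2 * (LL n : ℝ) * (C * Real.log (Real.log (LL n)) * (1 / (z : ℝ)) + 4 / Real.sqrt z)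
        ≤ 2 * (6 * (n : ℝ) ^ 2) * (C * (2 * ww n) * (1 / (z : ℝ)) + 4 / Real.sqrt z) := by
          apply mul_le_mul (by linarith) (by linarith)
          · have : 0 ≤ C * Real.log (Real.log (LL n)) * (1 / (z : ℝ)) :=
              mul_nonneg (mul_nonneg (by linarith) (by linarith [h3.1])) (by positivity)
            positivity
          · positivity
      _ = _ := by ring
  have c3 : ((F3 n z).card : ℝ) ≤ 4224 * ((n : ℝ) ^ 2 * (ww n * (1 / (z : ℝ)))) +
      6 * ((n : ℝ) ^ 2 * (1 + Real.log n) * (1 / (Nat.sqrt (Nat.sqrt n) : ℝ))) +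
      264 * ((n : ℝ) ^ 2 / Real.log n) := by
    have d1 : 352 * (LL n : ℝ) / Real.log n * (1 + Real.log n) * (1 / z) ≤
        4224 * ((n : ℝ) ^ 2 * (ww n * (1 / (z : ℝ)))) := by
      have h5 : 352 * (LL n : ℝ) / Real.log n * (1 + Real.log n) ≤ 4224 * (n : ℝ) ^ 2 := by
        rw [div_mul_eq_mul_div, div_le_iff₀ (by linarith)]
        calc 352 * (LL n : ℝ) * (1 + Real.log n) ≤ 352 * (6 * (n : ℝ) ^ 2) * (2 * Real.log n) :=
              mul_le_mul (by linarith) (by linarith) (by linarith) (by positivity)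
          _ = 4224 * (n : ℝ) ^ 2 * Real.log n := by ring
      have h7 : (1 : ℝ) / z ≤ ww n * (1 / z) := le_mul_of_one_le_left (by positivity) h1
      calc 352 * (LL n : ℝ) / Real.log n * (1 + Real.log n) * (1 / z) ≤
          4224 * (n : ℝ) ^ 2 * (ww n * (1 / z)) := mul_le_mul h5 h7 (by positivity) (by positivity)
        _ = _ := by ring
    have d2 : (LL n : ℝ) * (1 + Real.log n) * (1 / (Nat.sqrt (Nat.sqrt n) : ℝ)) ≤
        6 * ((n : ℝ) ^ 2 * (1 + Real.log n) * (1 / (Nat.sqrt (Nat.sqrt n) : ℝ))) := by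
      calc (LL n : ℝ) * (1 + Real.log n) * (1 / (Nat.sqrt (Nat.sqrt n) : ℝ)) ≤
          (6 * (n : ℝ) ^ 2) * (1 + Real.log n) * (1 / (Nat.sqrt (Nat.sqrt n) : ℝ)) := by
            apply mul_le_mul_of_nonneg_right _ (by positivity)
            exact mul_le_mul_of_nonneg_right hL (by linarith)
        _ = _ := by ring
    have d3 : 88 * Real.sqrt (((n : ℝ) + 1) ^ 3) * Real.sqrt n / Real.log n ≤
        264 * ((n : ℝ) ^ 2 / Real.log n) := by
      rw [← mul_div_assoc]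
      apply div_le_div_of_nonneg_right _ (by linarith)
      have h4 : Real.sqrt n * Real.sqrt n = n := Real.mul_self_sqrt (by linarith)
      calc 88 * Real.sqrt (((n : ℝ) + 1) ^ 3) * Real.sqrt n ≤
          88 * (3 * (n * Real.sqrt n)) * Real.sqrt n :=
            mul_le_mul_of_nonneg_right (by linarith) hsq0
        _ = 264 * (n * (Real.sqrt n * Real.sqrt n)) := by ring
        _ = _ := by rw [h4]; ring
    linarith
  refine b0.trans ?_
  refine (add_le_add c1 (add_le_add c2 c3)).trans (le_of_eq ?_)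
  ring

lemma Ng_mid (g : ℕ) : Ng (fun n => ((Mid g n).card : ℝ)) := by
  classical
  obtain ⟨n0, hU⟩ := UU_bound
  have hN := (((Ng_VV (show (0 : ℝ) < 1 / 2 by norm_num)).const_mul 324).add
    ((Ng_four (show (1 / 2 : ℝ) ≤ 2 by norm_num)).const_mul 2)).add
    ((Ng_z1 (show (1 / 2 : ℝ) < 1 by norm_num)).const_mul 300)
  refine hN.mono ?_
  filter_upwards [ww_tendsto.eventually_ge_atTop 1, eventually_ge_atTop (max n0 1),
    (zf_tendsto (show (0 : ℝ) < 1 / 2 by norm_num)).eventually_ge_atTop 3] with n h1 h2 h3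
  refine ⟨Nat.cast_nonneg _, ?_⟩
  set z := zf (1 / 2) n with hz
  have hL := LL_le (n := n) ((le_max_right _ _).trans h2)
  have hzw : (z : ℝ) ≤ ww n := by
    refine (zf_le h1).trans ?_
    calc ww n ^ (1 / 2 : ℝ) ≤ ww n ^ (1 : ℝ) := Real.rpow_le_rpow_of_exponent_le h1 (by norm_num)
      _ = ww n := Real.rpow_one _
  have hV0 : 0 ≤ (VV z)⁻¹ ^ 3 := by
    have h5 : 0 ≤ (VV z)⁻¹ := by
      unfold VV
      rw [← prod_inv_distrib]
      apply Finset.prod_nonneg
      intro p hp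
      rw [inv_inv, sub_nonneg]
      have hp1 : (1 : ℝ) ≤ p := by exact_mod_cast (Pr_prime hp).one_lt.le
      exact inv_le_one_of_one_le₀ hp1
    positivity
  set B : ℝ := 162 * ((n : ℝ) ^ 2 * (VV z)⁻¹ ^ 3) + 4 ^ z + 150 * (z * ((n : ℝ) ^ 2 / ww n)) with hB
  have hB0 : 0 ≤ B := by positivity
  have := Mid_card (g := g) (n := n) hB0 (fun a b hab => by
    have h5 := hU n ((le_max_left _ _).trans h2) {0, a, b} z hzw
    refine h5.trans ?_
    have h6 := prod_three hab h3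
    have hcard : ((({0, a, b} : Finset ℕ).card : ℕ) : ℝ) = 3 := by
      rcases hab with ⟨rfl, rfl⟩ | ⟨rfl, rfl⟩ | ⟨rfl, rfl⟩ <;> norm_num
    rw [hcard, hB]
    have h7 : (LL n : ℝ) * ∏ p ∈ Pr z, (1 - (rho {0, a, b} p : ℝ) / p) ≤
        162 * ((n : ℝ) ^ 2 * (VV z)⁻¹ ^ 3) := by
      calc (LL n : ℝ) * ∏ p ∈ Pr z, (1 - (rho {0, a, b} p : ℝ) / p) ≤
          LL n * (27 * (VV z)⁻¹ ^ 3) := mul_le_mul_of_nonneg_left h6 (Nat.cast_nonneg _)
        _ ≤ (6 * (n : ℝ) ^ 2) * (27 * (VV z)⁻¹ ^ 3) :=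
            mul_le_mul_of_nonneg_right hL (by positivity)
        _ = _ := by ring
    have h8 : (3 : ℝ) * (z * (50 * (n : ℝ) ^ 2 / ww n)) = 150 * (z * ((n : ℝ) ^ 2 / ww n)) := by
      ring
    linarith)
  refine this.trans (le_of_eq ?_)
  rw [hB]
  ring

/-- upper bound -/
lemma upper {g : ℕ} (hg : g = 2 ∨ g = 4 ∨ g = 6) {α : ℝ} (hα : 0 < α) (hα1 : α < 1) :
    ∃ U : ℕ → ℝ, Tendsto U atTop (𝓝 (3 * Kg g / α ^ 2)) ∧
      ∀ᶠ n in atTop, ((TG g n).card : ℝ) * sc n ≤ U n := by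
  classical
  obtain ⟨n0, hU⟩ := UU_bound
  have hN : Tendsto _ _ _ := (Ng_four (show α ≤ 2 by linarith)).add ((Ng_z1 hα1).const_mul 100)
  have h := (main_tendsto hg hα).add hN
  rw [add_zero] at h
  refine ⟨_, h, ?_⟩
  filter_upwards [ww_tendsto.eventually_ge_atTop 1, eventually_ge_atTop n0] with n h1 h2
  have hzw : (zf α n : ℝ) ≤ ww n := by
    refine (zf_le h1).trans ?_
    calc ww n ^ α ≤ ww n ^ (1 : ℝ) := Real.rpow_le_rpow_of_exponent_le h1 hα1.le
      _ = ww n := Real.rpow_one _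
  have h3 := hU n h2 {0, g} (zf α n) hzw
  have h4 : ((TG g n).card : ℝ) ≤ (UU {0, g} n).card := by exact_mod_cast card_le_card (TG_subset g n)
  have hcard : ((({0, g} : Finset ℕ).card : ℕ) : ℝ) = 2 := by
    rcases hg with rfl | rfl | rfl <;> norm_num
  rw [hcard] at h3
  rw [← add_mul]
  apply mul_le_mul_of_nonneg_right _ (sc_nonneg n)
  refine h4.trans (h3.trans (le_of_eq ?_))
  unfold G
  ring

/-- lower bound -/
lemma lower {g : ℕ} (hg : g = 2 ∨ g = 4 ∨ g = 6) {α : ℝ} (hα : 1 < α) (hα1 : α ≤ 2) :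
    ∃ U : ℕ → ℝ, Tendsto U atTop (𝓝 (3 * Kg g / α ^ 2)) ∧
      ∀ᶠ n in atTop, U n ≤ ((TG g n).card : ℝ) * sc n := by
  have hN : Tendsto _ _ _ := ((Ng_four hα1).add (Ng_const 6 (by norm_num))).add
    (((Ng_bad hα).const_mul 2).add (Ng_mid g))
  have h := (main_tendsto hg (show 0 < α by linarith)).sub hN
  rw [sub_zero] at h
  refine ⟨_, h, ?_⟩
  filter_upwards [ww_tendsto.eventually_ge_atTop 1, eventually_ge_atTop 2,
    (zf_tendsto (show 0 < α by linarith)).eventually_ge_atTop 2] with n h1 h2 h3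
  rw [← sub_mul]
  apply mul_le_mul_of_nonneg_right _ (sc_nonneg n)
  have := TG_lower hg h2 h3
  linarith

/-- the asymptotic formula -/
theorem TG_tendsto {g : ℕ} (hg : g = 2 ∨ g = 4 ∨ g = 6) :
    Tendsto (fun n => ((TG g n).card : ℝ) * sc n) atTop (𝓝 (3 * Kg g)) := by
  have hc : Tendsto (fun α : ℝ => 3 * Kg g / α ^ 2) (𝓝 1) (𝓝 (3 * Kg g)) := by
    have h : ContinuousAt (fun α : ℝ => 3 * Kg g / α ^ 2) 1 := by
      apply ContinuousAt.div continuousAt_const (continuousAt_id.pow 2)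
      norm_num
    have h2 := h.tendsto
    simp only [one_pow, div_one] at h2
    exact h2
  rw [tendsto_order]
  constructor
  · intro a ha
    have h1 : ∀ᶠ α in 𝓝[>] (1 : ℝ), a < 3 * Kg g / α ^ 2 :=
      (hc.mono_left nhdsWithin_le_nhds).eventually_const_lt ha
    have h2 : ∀ᶠ α in 𝓝[>] (1 : ℝ), α ∈ Set.Ioo (1 : ℝ) 2 := Ioo_mem_nhdsGT (by norm_num)
    obtain ⟨α, h3, h4⟩ := (h1.and h2).exists
    obtain ⟨U, hU, hle⟩ := lower hg h4.1 h4.2.le
    filter_upwards [hU.eventually_const_lt h3, hle] with n k1 k2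
    exact k1.trans_le k2
  · intro a ha
    have h1 : ∀ᶠ α in 𝓝[<] (1 : ℝ), 3 * Kg g / α ^ 2 < a :=
      (hc.mono_left nhdsWithin_le_nhds).eventually_lt_const ha
    have h2 : ∀ᶠ α in 𝓝[<] (1 : ℝ), α ∈ Set.Ioo (0 : ℝ) 1 := Ioo_mem_nhdsLT (by norm_num)
    obtain ⟨α, h3, h4⟩ := (h1.and h2).exists
    obtain ⟨U, hU, hle⟩ := upper hg h4.1 h4.2
    filter_upwards [hU.eventually_lt_const h3, hle] with n k1 k2
    exact k2.trans_lt k1

end Pool.Agent.X27.CY
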