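import Mathlib
import Pool.Agent.X27.CY.Final

set_option autoImplicit false

/-!
# The asymptotic formula in terms of `log log log n`, and regular variation
-/

namespace Pool.Agent.X27.CY

open Finset Filter Topology

/-- `log log log n` -/
noncomputable def lll (n : ℕ) : ℝ := Real.log (Real.log (Real.log n))

lemma log_tendsto : Tendsto (fun n : ℕ => Real.log n) atTop atTop :=
  Real.tendsto_log_atTop.comp tendsto_natCast_atTop_atTop

lemma llog_tendsto : Tendsto (fun n : ℕ => Real.log (Real.log n)) atTop atTop :=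
  Real.tendsto_log_atTop.comp log_tendsto

lemma lll_tendsto : Tendsto lll atTop atTop := Real.tendsto_log_atTop.comp llog_tendsto

lemma log_ww : Tendsto (fun n => Real.log (ww n) / lll n) atTop (𝓝 1) := by
  have hs : Tendsto (fun n : ℕ => Real.sqrt n) atTop atTop :=
    Real.tendsto_sqrt_atTop.comp tendsto_natCast_atTop_atTop
  have h1 : Tendsto (fun n : ℕ => (Nat.sqrt n : ℝ) / Real.sqrt n) atTop (𝓝 1) := by
    have h := (tendsto_nat_floor_div_atTop (R := ℝ)).comp hs
    refine h.congr fun n => ?_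
    simp only [Function.comp_apply]
    rw [Real.nat_floor_real_sqrt_eq_nat_sqrt]
  have h2 := log_ratio one_pos hs h1
  have h3 : Tendsto (fun n : ℕ => Real.log (Nat.sqrt n : ℝ) / Real.log n) atTop (𝓝 (1 / 2)) := by
    have h := h2.const_mul (1 / 2 : ℝ)
    rw [mul_one] at h
    refine h.congr' ?_
    filter_upwards [eventually_ge_atTop 2] with n hn
    have hn2 : (2 : ℝ) ≤ n := by exact_mod_cast hn
    have hl : 0 < Real.log n := Real.log_pos (by linarith)
    rw [Real.log_sqrt (by linarith)]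
    field_simp
  have h4 := log_ratio (by norm_num) log_tendsto h3
  exact log_ratio one_pos llog_tendsto h4

/-- asymptotic formula for the number of the pairs -/
theorem TG_asymp {g : ℕ} (hg : g = 2 ∨ g = 4 ∨ g = 6) :
    Tendsto (fun n => ((TG g n).card : ℝ) * lll n ^ 2 / (n : ℝ) ^ 2) atTop (𝓝 (3 * Kg g)) := by
  have h := (TG_tendsto hg).mul ((log_ww.inv₀ one_ne_zero).pow 2)
  rw [inv_one, one_pow, mul_one] at h
  refine h.congr' ?_
  filter_upwards [ww_tendsto.eventually_gt_atTop 1, lll_tendsto.eventually_gt_atTop 0,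
    eventually_ge_atTop 1] with n h1 h2 h3
  have hlw := Real.log_pos h1
  have hn0 : (0 : ℝ) < n := by exact_mod_cast h3
  unfold sc
  rw [inv_div]
  field_simp

lemma lll_floor {μ : ℝ} (hμ : 0 < μ) :
    Tendsto (fun n : ℕ => lll ⌊μ * n⌋₊ / lll n) atTop (𝓝 1) := by
  have h0 : Tendsto (fun n : ℕ => μ * (n : ℝ)) atTop atTop :=
    tendsto_natCast_atTop_atTop.const_mul_atTop hμ
  have h1 : Tendsto (fun n : ℕ => (⌊μ * n⌋₊ : ℝ) / n) atTop (𝓝 μ) := by
    have h := ((tendsto_nat_floor_div_atTop (R := ℝ)).comp h0).const_mul μ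
    rw [mul_one] at h
    refine h.congr' ?_
    filter_upwards [eventually_ge_atTop 1] with n hn
    have hn0 : (0 : ℝ) < n := by exact_mod_cast hn
    simp only [Function.comp_apply]
    field_simp
  have h2 := log_ratio hμ tendsto_natCast_atTop_atTop h1
  have h3 := log_ratio one_pos log_tendsto h2
  exact log_ratio one_pos llog_tendsto h3

/-- the approximating sequence -/
noncomputable def fseq (κ : ℝ) (n : ℕ) : ℝ := κ * (max n 1 : ℕ) ^ 2 / max 1 (lll n) ^ 2

lemma fseq_pos {κ : ℝ} (hκ : 0 < κ) (n : ℕ) : 0 < fseq κ n := by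
  unfold fseq
  have h1 : (0 : ℝ) < (max n 1 : ℕ) := by exact_mod_cast lt_of_lt_of_le one_pos (le_max_right n 1)
  have h2 : (0 : ℝ) < max 1 (lll n) := lt_of_lt_of_le one_pos (le_max_left _ _)
  positivity

lemma fseq_rv {κ : ℝ} (hκ : 0 < κ) {μ : ℝ} (hμ : 0 < μ) :
    Tendsto (fun n : ℕ => fseq κ ⌊μ * n⌋₊ / fseq κ n) atTop (𝓝 (μ ^ (2 : ℝ))) := by
  have h0 : Tendsto (fun n : ℕ => μ * (n : ℝ)) atTop atTop :=
    tendsto_natCast_atTop_atTop.const_mul_atTop hμ
  have hfl : Tendsto (fun n : ℕ => ⌊μ * (n : ℝ)⌋₊) atTop atTop := tendsto_nat_floor_atTop.comp h0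
  have h1 : Tendsto (fun n : ℕ => (⌊μ * n⌋₊ : ℝ) / n) atTop (𝓝 μ) := by
    have h := ((tendsto_nat_floor_div_atTop (R := ℝ)).comp h0).const_mul μ
    rw [mul_one] at h
    refine h.congr' ?_
    filter_upwards [eventually_ge_atTop 1] with n hn
    have hn0 : (0 : ℝ) < n := by exact_mod_cast hn
    simp only [Function.comp_apply]
    field_simp
  have h2 := (h1.pow 2).mul (((lll_floor hμ).inv₀ one_ne_zero).pow 2)
  rw [inv_one, one_pow, mul_one, ← Real.rpow_two] at h2
  refine h2.congr' ?_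
  filter_upwards [eventually_ge_atTop 1, hfl.eventually_ge_atTop 1,
    lll_tendsto.eventually_gt_atTop 1, (lll_tendsto.comp hfl).eventually_gt_atTop 1]
    with n k1 k2 k3 k4
  simp only [Function.comp_apply] at k4
  unfold fseq
  rw [max_eq_left k1, max_eq_left k2, max_eq_right k3.le, max_eq_right k4.le]
  have hn0 : (0 : ℝ) < n := by exact_mod_cast k1
  have k3' : 0 < lll n := by linarith
  have k4' : 0 < lll ⌊μ * n⌋₊ := by linarith
  rw [inv_div]
  field_simp

lemma fseq_sim {κ : ℝ} (hκ : 0 < κ) {a : ℕ → ℝ}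
    (h : Tendsto (fun n => a n * lll n ^ 2 / (n : ℝ) ^ 2) atTop (𝓝 κ)) :
    Tendsto (fun n => a n / fseq κ n) atTop (𝓝 1) := by
  have h2 := h.div_const κ
  rw [div_self hκ.ne'] at h2
  refine h2.congr' ?_
  filter_upwards [eventually_ge_atTop 1, lll_tendsto.eventually_gt_atTop 1] with n k1 k3
  unfold fseq
  rw [max_eq_left k1, max_eq_right k3.le]
  have hn0 : (0 : ℝ) < n := by exact_mod_cast k1
  have k3' : 0 < lll n := by linarith
  field_simp

lemma TG_card_eq (g n : ℕ) : Nat.card {c : ℕ | IsPair g n c} = (TG g n).card := by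
  classical
  have e : {c : ℕ | IsPair g n c} = ((TG g n : Finset ℕ) : Set ℕ) := by
    ext c
    rw [Set.mem_setOf_eq, Finset.mem_coe]
    unfold TG
    rw [mem_filter, mem_II]
    constructor
    · intro h
      exact ⟨⟨h.1, by have := h.2.1; omega⟩, h⟩
    · intro h
      exact h.2
  rw [e]
  simp

end Pool.Agent.X27.CY
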